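import Pool.Agent.L7h62.SD.Bdd

/-!
# Project SD: the points with constant values form a vector space
-/

set_option autoImplicit false
set_option linter.all false

open FF Module Pool.Agent.W602.GT Pool.Agent.W603.LV Pool.Agent.W619.PQ Pool.Agent.Y172
open Pool.Agent.L7h62.MM

namespace Pool.Agent.L7h62.SD

section

variable {K : Type} [Field K] [Algebra ℂ K] {n m : ℕ}
  {L : Type} [Field L] [Algebra ℂ L] [Algebra K L] [IsScalarTower ℂ K L]

/-- the certificate at a place -/
theorem cert_IntAt (ρ : ResData n m) (hINT : S_INT) (hm : 1 ≤ m) {P : Place ℂ K}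
    {a : Fin n → (Fin m → Fin n) → K} (ha : ∀ i j, P.Reg (a i j)) (x : Fin n → L)
    (hx : ∀ i, ∃ c : K, P.Reg c ∧ ev (fun j => algebraMap K L (a i j)) x = algebraMap K L c)
    (j : Fin n) : IntAt P (algebraMap K L (at_ a ρ.p ^ ρ.M) * x j) := by
  letI iO : Algebra P.O L := ((algebraMap K L).comp P.O.subtype).toAlgebra
  letI iC : Algebra ℂ P.O :=
    ((algebraMap ℂ K).codRestrict P.O.toSubring fun c => P.reg_const c).toAlgebra
  have hst1 : IsScalarTower ℂ P.O K := IsScalarTower.of_algebraMap_eq fun _ => rfl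
  have hst : IsScalarTower ℂ P.O L := IsScalarTower.of_algebraMap_eq fun c => by
    change algebraMap ℂ L c = algebraMap K L (algebraMap ℂ K c)
    exact IsScalarTower.algebraMap_apply ℂ K L c
  obtain ⟨a', ha'⟩ : ∃ a' : Fin n → (Fin m → Fin n) → P.O, ∀ i j, (a' i j : K) = a i j :=
    ⟨fun i j => ⟨a i j, ha i j⟩, fun _ _ => rfl⟩
  have hmap : ∀ z : P.O, algebraMap P.O L z = algebraMap K L (z : K) := fun _ => rfl
  have h1 := cert_int ρ hINT hm (R := P.O) (S := L) a' x (fun i => by
    obtain ⟨c, hc, hcx⟩ := hx i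
    refine ⟨⟨c, hc⟩, ?_⟩
    rw [hmap]
    rw [← hcx]
    congr 1
    funext j
    rw [hmap, ha']) j
  have h2 : algebraMap P.O L (at_ a' ρ.p ^ ρ.M) = algebraMap K L (at_ a ρ.p ^ ρ.M) := by
    rw [hmap]
    congr 1
    have h3 := at_map (IsScalarTower.toAlgHom ℂ P.O K) a' ρ.p
    have h4 : at_ (fun i j => (IsScalarTower.toAlgHom ℂ P.O K) (a' i j)) ρ.p = at_ a ρ.p := by
      congr 1
      funext i j
      exact ha' i j
    rw [h4] at h3
    change ((at_ a' ρ.p ^ ρ.M : P.O) : K) = _
    rw [← h3]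
    rfl
  rw [h2] at h1
  exact h1

end

section

variable {K : Type} [Field K] [Algebra ℂ K] [Algebra.EssFiniteType ℂ K] {n m : ℕ}
  {L : Type} [Field L] [Algebra ℂ L] [Algebra K L] [IsScalarTower ℂ K L]

/-- the coefficients in the larger field -/
abbrev coL (L : Type) [Field L] [Algebra K L] (T : Fin n → Ten K m) (D : Fin n → Derivation ℂ K K) :
    Fin n → (Fin m → Fin n) → L := fun i j => algebraMap K L (co T D i j)

/-- changing to a local frame -/
theorem coL_change (T : Fin n → Ten K m) {y : Fin n → K} {E : Fin n → Derivation ℂ K K}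
    (hy : IsTranscendenceBasis ℂ y) (hE : ∀ i j, E i (y j) = if i = j then 1 else 0)
    (D : Fin n → Derivation ℂ K K) (i : Fin n) :
    coL L T D i = act ((Matrix.of fun i j => D i (y j)).transpose.map (algebraMap K L))
      (coL L T E i) := by
  have h1 : D = fun i => ∑ j, (Matrix.of fun i j => D i (y j)) i j • E j := by
    funext i
    exact (expandD ⟨y, E, hy, hE⟩ (D i)).symm
  funext j
  unfold coL
  conv_lhs => rw [h1]
  rw [co_change, act_map]

/-- **The sum of two points with constant values has constant values.** -/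
theorem hadd (hn : Algebra.trdeg ℂ K = n) (hκ : KodLeZero K n) (ρ : ResData n m)
    (hINT : S_INT) (hm : 1 ≤ m)
    {T : Fin n → Ten K m} (hreg : ∀ i, RegT (n := n) (T i)) (C : Crd ℂ K (Fin n))
    (hne : Th ρ T C.E ≠ 0) [Algebra.IsAlgebraic K L] :
    ∀ x ∈ V0 (coL L T C.E), ∀ x' ∈ V0 (coL L T C.E), (fun j => x j + x' j) ∈ V0 (coL L T C.E) := by
  intro x hx x' hx' i
  have hM := ρ.hM
  refine const_of_bdd hn hκ ρ hreg C hne (Algebra.IsIntegral.isIntegral _) (ρ.M * m)
    (Nat.mul_pos (by omega) hm) fun P hP y E i0 hl => ?_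
  obtain ⟨B, hB⟩ : ∃ B : Matrix (Fin n) (Fin n) L,
    B = (Matrix.of fun i j => C.E i (y j)).transpose.map (algebraMap K L) := ⟨_, rfl⟩
  have hch : ∀ i, coL L T C.E i = act B (coL L T E i) := fun i => by
    rw [hB]
    exact coL_change T hl.bas hl.dual C.E i
  have hev : ∀ i (z : Fin n → L), ev (coL L T C.E i) z = ev (coL L T E i) (B.mulVec z) := by
    intro i z
    rw [hch, ev_act]
  have hEreg : ∀ i j, P.Reg (co T E i j) := co_reg hreg hP hl.pres
  have hint : ∀ z ∈ V0 (coL L T C.E), ∀ j,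
      IntAt P (algebraMap K L (Th ρ T E ^ ρ.M) * (B.mulVec z) j) := by
    intro z hz j
    refine cert_IntAt ρ hINT hm hEreg _ (fun i => ?_) j
    obtain ⟨c, hc⟩ := hz i
    refine ⟨algebraMap ℂ K c, P.reg_const c, ?_⟩
    rw [hev] at hc
    rw [← IsScalarTower.algebraMap_apply, ← hc]
  rw [hev]
  obtain ⟨r, hr⟩ : ∃ r, r = algebraMap K L (Th ρ T E ^ ρ.M) := ⟨_, rfl⟩
  have h1 : algebraMap K L (Th ρ T E ^ (ρ.M * m)) * ev (coL L T E i) (B.mulVec fun j => x j + x' j) =
      ev (coL L T E i) fun j => r * (B.mulVec x) j + r * (B.mulVec x') j := by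
    have h2 : (fun j => r * (B.mulVec x) j + r * (B.mulVec x') j) =
        fun j => r * (B.mulVec fun j => x j + x' j) j := by
      funext j
      have h3 : (B.mulVec fun j => x j + x' j) = B.mulVec x + B.mulVec x' := by
        rw [← Matrix.mulVec_add]
        rfl
      rw [h3, Pi.add_apply, mul_add]
    rw [h2, ev_smul, hr, ← map_pow, ← pow_mul]
  rw [h1]
  unfold ev
  refine IntAt.sum _ _ fun κ _ => (IntAt.of_reg (hEreg i κ)).mul (IntAt.prod _ _ fun l _ => ?_)
  rw [hr]
  exact (hint x hx _).add (hint x' hx' _)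

end

end Pool.Agent.L7h62.SD
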