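import Pool.Agent.L7h62.SD.Defs2

/-!
# Project SD: forms, substitutions, certificates
-/

set_option autoImplicit false

open MvPolynomial

namespace Pool.Agent.L7h62.SD

section basics

variable {R : Type*} [CommRing R] {N m : ℕ}

theorem ev_act (g : Matrix (Fin N) (Fin N) R) (a : (Fin m → Fin N) → R) (x : Fin N → R) :
    ev (act g a) x = ev a (g.mulVec x) := by
  classical
  unfold ev act
  simp only [Finset.sum_mul]
  rw [Finset.sum_comm]
  refine Finset.sum_congr rfl fun j _ => ?_
  have h1 : ∏ l, (g.mulVec x) (j l) = ∑ k : Fin m → Fin N, ∏ l, (g (j l) (k l) * x (k l)) := by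
    have h2 := Finset.prod_univ_sum (fun _ : Fin m => (Finset.univ : Finset (Fin N)))
      (fun l k => g (j l) k * x k)
    rw [Fintype.piFinset_univ] at h2
    exact h2
  rw [h1, Finset.mul_sum]
  refine Finset.sum_congr rfl fun k _ => ?_
  rw [Finset.prod_mul_distrib, mul_assoc]

theorem act_mul (g h : Matrix (Fin N) (Fin N) R) (a : (Fin m → Fin N) → R) :
    act (g * h) a = act h (act g a) := by
  classical
  funext k
  unfold act
  simp only [Finset.sum_mul]
  rw [Finset.sum_comm]
  refine Finset.sum_congr rfl fun j _ => ?_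
  have h1 : ∏ l, (g * h) (j l) (k l) = ∑ i : Fin m → Fin N, ∏ l, (g (j l) (i l) * h (i l) (k l)) := by
    have h2 := Finset.prod_univ_sum (fun _ : Fin m => (Finset.univ : Finset (Fin N)))
      (fun l i => g (j l) i * h i (k l))
    rw [Fintype.piFinset_univ] at h2
    exact h2
  rw [h1, Finset.mul_sum]
  refine Finset.sum_congr rfl fun i _ => ?_
  rw [Finset.prod_mul_distrib, mul_assoc]

theorem act_one (a : (Fin m → Fin N) → R) : act 1 a = a := by
  classical
  funext k
  unfold act
  rw [Finset.sum_eq_single k]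
  · simp
  · intro j _ hj
    have h1 : ∃ l, j l ≠ k l := by
      by_contra h
      push Not at h
      exact hj (funext h)
    obtain ⟨l, hl⟩ := h1
    rw [Finset.prod_eq_zero (Finset.mem_univ l), mul_zero]
    rw [Matrix.one_apply_ne hl]
  · intro h
    exact absurd (Finset.mem_univ _) h

theorem ev_smul (a : (Fin m → Fin N) → R) (t : R) (x : Fin N → R) :
    ev a (fun i => t * x i) = t ^ m * ev a x := by
  unfold ev
  rw [Finset.mul_sum]
  refine Finset.sum_congr rfl fun j _ => ?_
  rw [Finset.prod_mul_distrib, Finset.prod_const, Finset.card_univ, Fintype.card_fin]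
  ring

theorem ev_map {S : Type*} [CommRing S] (φ : R →+* S) (a : (Fin m → Fin N) → R) (x : Fin N → R) :
    φ (ev a x) = ev (fun j => φ (a j)) (fun i => φ (x i)) := by
  unfold ev
  rw [map_sum]
  refine Finset.sum_congr rfl fun j _ => ?_
  rw [map_mul, map_prod]

theorem act_map {S : Type*} [CommRing S] (φ : R →+* S) (g : Matrix (Fin N) (Fin N) R)
    (a : (Fin m → Fin N) → R) (k : Fin m → Fin N) :
    φ (act g a k) = act (g.map φ) (fun j => φ (a j)) k := by
  unfold act
  rw [map_sum]
  refine Finset.sum_congr rfl fun j _ => ?_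
  rw [map_mul, map_prod]
  rfl

theorem at_map {R S : Type*} [CommRing R] [CommRing S] [Algebra ℂ R] [Algebra ℂ S]
    (φ : R →ₐ[ℂ] S) (a : Fin N → (Fin m → Fin N) → R) (F : UR N m) :
    φ (at_ a F) = at_ (fun i j => φ (a i j)) F := by
  unfold at_
  rw [← AlgHom.comp_apply, MvPolynomial.comp_aeval]

/-- symmetric coefficients -/
def Symm (a : (Fin m → Fin N) → R) : Prop :=
  ∀ (π : Equiv.Perm (Fin m)) (j : Fin m → Fin N), a (j ∘ π) = a j

theorem act_symm {a : (Fin m → Fin N) → R} (ha : Symm a) (g : Matrix (Fin N) (Fin N) R) :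
    Symm (act g a) := by
  intro π k
  unfold act
  have h1 := Equiv.sum_comp (Equiv.arrowCongr π.symm (Equiv.refl (Fin N)))
    (fun j : Fin m → Fin N => a j * ∏ l, g (j l) ((k ∘ π) l))
  rw [← h1]
  refine Finset.sum_congr rfl fun j _ => ?_
  have h2 : (Equiv.arrowCongr π.symm (Equiv.refl (Fin N))) j = j ∘ π := by
    funext l
    simp [Equiv.arrowCongr]
  rw [h2, ha]
  congr 1
  exact Equiv.prod_comp π (fun l => g (j l) (k l))

/-- the exponent of a word -/
noncomputable def wexp (j : Fin m → Fin N) : Fin N →₀ ℕ := ∑ l, Finsupp.single (j l) 1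

theorem wexp_apply (j : Fin m → Fin N) (s : Fin N) :
    wexp j s = (Finset.univ.filter fun l => j l = s).card := by
  classical
  unfold wexp
  rw [Finsupp.finsetSum_apply, Finset.card_filter]
  refine Finset.sum_congr rfl fun l _ => ?_
  rw [Finsupp.single_apply]

theorem wexp_eq {j j' : Fin m → Fin N} (h : wexp j = wexp j') :
    ∃ π : Equiv.Perm (Fin m), j = j' ∘ π := by
  classical
  have h1 : ∀ s : Fin N, Nonempty ({l // j l = s} ≃ {l // j' l = s}) := by
    intro s
    refine ⟨Fintype.equivOfCardEq ?_⟩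
    rw [Fintype.card_subtype, Fintype.card_subtype, ← wexp_apply, ← wexp_apply, h]
  refine ⟨Equiv.ofFiberEquiv fun s => (h1 s).some, ?_⟩
  funext l
  exact (Equiv.ofFiberEquiv_map _ l).symm

theorem word_monomial (j : Fin m → Fin N) :
    (∏ l, X (j l) : MvPolynomial (Fin N) R) = monomial (wexp j) 1 := by
  unfold wexp
  rw [MvPolynomial.monomial_sum_one]
  rfl

end basics

section field

variable {F : Type*} [Field F] [CharZero F] {N m : ℕ}

/-- symmetric coefficients are determined by the values -/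
theorem symm_zero {b : (Fin m → Fin N) → F} (hb : Symm b) (h : ∀ y : Fin N → F, ev b y = 0) :
    b = 0 := by
  classical
  have h1 : (∑ j, C (b j) * ∏ l, X (j l) : MvPolynomial (Fin N) F) = 0 := by
    refine MvPolynomial.funext fun y => ?_
    rw [map_sum, map_zero]
    rw [← h y]
    unfold ev
    refine Finset.sum_congr rfl fun j _ => ?_
    rw [map_mul, eval_C, map_prod]
    congr 1
    refine Finset.prod_congr rfl fun l _ => ?_
    rw [eval_X]
  funext j0
  have h2 := congrArg (coeff (wexp j0)) h1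
  rw [coeff_sum, coeff_zero] at h2
  have h3 : ∀ j : Fin m → Fin N, coeff (wexp j0) (C (b j) * ∏ l, X (j l) : MvPolynomial (Fin N) F) =
      if wexp j = wexp j0 then b j0 else 0 := by
    intro j
    rw [word_monomial, coeff_C_mul, coeff_monomial]
    split_ifs with hj
    · obtain ⟨π, rfl⟩ := wexp_eq hj
      rw [hb, mul_one]
    · rw [mul_zero]
  rw [Finset.sum_congr rfl fun j _ => h3 j, ← Finset.sum_filter, Finset.sum_const, nsmul_eq_mul]
    at h2
  rcases mul_eq_zero.1 h2 with h4 | h4
  · exfalso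
    rw [Nat.cast_eq_zero, Finset.card_eq_zero] at h4
    have h5 : j0 ∈ Finset.univ.filter fun j : Fin m → Fin N => wexp j = wexp j0 := by simp
    rw [h4] at h5
    simp at h5
  · exact h4

theorem symm_eq {b b' : (Fin m → Fin N) → F} (hb : Symm b) (hb' : Symm b')
    (h : ∀ y : Fin N → F, ev b y = ev b' y) : b = b' := by
  have h1 : b - b' = 0 := by
    refine symm_zero (fun π j => ?_) fun y => ?_
    · rw [Pi.sub_apply, Pi.sub_apply, hb, hb']
    · have h2 : ev (b - b') y = ev b y - ev b' y := by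
        unfold ev
        rw [← Finset.sum_sub_distrib]
        refine Finset.sum_congr rfl fun j _ => ?_
        rw [Pi.sub_apply, sub_mul]
      rw [h2, h, sub_self]
  exact sub_eq_zero.1 h1

end field

section const

variable {L : Type} [Field L] [Algebra ℂ L] {N m : ℕ}

/-- symmetric coefficients are constant if the values at constant points are -/
theorem symm_const {b : (Fin m → Fin N) → L} (hb : Symm b)
    (h : ∀ y : Fin N → ℂ, ∃ c : ℂ, ev b (fun i => algebraMap ℂ L (y i)) = algebraMap ℂ L c)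
    (j : Fin m → Fin N) : ∃ c : ℂ, b j = algebraMap ℂ L c := by
  by_contra hcon
  push Not at hcon
  have h1 : b j ∉ (ℂ ∙ (1 : L)) := by
    intro h1
    obtain ⟨c, hc⟩ := Submodule.mem_span_singleton.1 h1
    apply hcon c
    rw [← hc, Algebra.smul_def, mul_one]
  obtain ⟨θ, hθ, hθ1⟩ := Submodule.exists_dual_map_eq_bot_of_notMem h1 inferInstance
  have h2 : ∀ c : ℂ, θ (algebraMap ℂ L c) = 0 := by
    intro c
    have h3 : θ (algebraMap ℂ L c) ∈ (ℂ ∙ (1 : L)).map θ := by
      refine Submodule.mem_map_of_mem ?_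
      rw [Algebra.algebraMap_eq_smul_one]
      exact Submodule.smul_mem _ _ (Submodule.mem_span_singleton_self _)
    rw [hθ1] at h3
    exact (Submodule.mem_bot ℂ).1 h3
  have h3 : (fun j => θ (b j)) = 0 := by
    refine symm_zero (fun π j => by rw [hb]) fun y => ?_
    obtain ⟨c, hc⟩ := h y
    have h4 : ev (fun j => θ (b j)) y = θ (ev b fun i => algebraMap ℂ L (y i)) := by
      unfold ev
      rw [map_sum]
      refine Finset.sum_congr rfl fun j _ => ?_
      rw [← map_prod, mul_comm (b j), ← Algebra.smul_def, map_smul, smul_eq_mul, mul_comm]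
    rw [h4, hc, h2]
  exact hθ (congrFun h3 j)

end const

section cert

variable {N m : ℕ} (ρ : ResData N m)

/-- evaluation at the tuple `a` and the point `x` -/
noncomputable def evl {S : Type*} [CommRing S] [Algebra ℂ S] (a : Fin N → (Fin m → Fin N) → S)
    (x : Fin N → S) : MvPolynomial (Fin N) (UR N m) →+* S :=
  eval₂Hom (aeval (fun p : Idx N m => a p.1 p.2) : UR N m →ₐ[ℂ] S).toRingHom x

theorem evl_gen {S : Type*} [CommRing S] [Algebra ℂ S] (a : Fin N → (Fin m → Fin N) → S)
    (x : Fin N → S) (i : Fin N) : evl a x (gen N m i) = ev (a i) x := by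
  unfold evl gen ev
  rw [map_sum]
  refine Finset.sum_congr rfl fun j _ => ?_
  rw [map_mul, map_prod, coe_eval₂Hom, eval₂_C]
  congr 1
  · exact aeval_X _ _
  · refine Finset.prod_congr rfl fun l _ => ?_
    rw [eval₂_X]

theorem cert_eval {S : Type*} [CommRing S] [Algebra ℂ S] (a : Fin N → (Fin m → Fin N) → S)
    (x : Fin N → S) (j : Fin N) :
    at_ a ρ.p ^ ρ.M * x j ^ ρ.M = ∑ i, evl a x (ρ.h j i) * ev (a i) x := by
  have h1 := congrArg (evl a x) (ρ.cert j)
  rw [map_mul, map_pow (evl a x) (X j), map_sum] at h1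
  have h2 : evl a x (C (ρ.p ^ ρ.M)) = at_ a ρ.p ^ ρ.M := by
    unfold evl at_
    rw [coe_eval₂Hom, eval₂_C]
    exact map_pow _ _ _
  have h3 : evl a x (X j) = x j := by
    unfold evl
    rw [coe_eval₂Hom, eval₂_X]
  rw [h2, h3] at h1
  rw [h1]
  refine Finset.sum_congr rfl fun i _ => ?_
  rw [map_mul, evl_gen]

/-- the values of homogeneous polynomials after scaling -/
theorem evl_mem {R S : Type} [CommRing R] [CommRing S] [Algebra ℂ R] [Algebra ℂ S] [Algebra R S]
    [IsScalarTower ℂ R S] (a : Fin N → (Fin m → Fin N) → R) (x y : Fin N → S) (r : R)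
    (hy : ∀ j, y j = algebraMap R S r * x j) {d : ℕ} {G : MvPolynomial (Fin N) (UR N m)}
    (hG : G.IsHomogeneous d) {M : ℕ} (hM : d < M) :
    algebraMap R S (r ^ d) * evl (fun i j => algebraMap R S (a i j)) x G ∈
      Submodule.span R {z : S | ∃ β : Fin N → ℕ, ∑ i, β i < M ∧ z = ∏ i, y i ^ β i} := by
  classical
  have h1 : evl (fun i j => algebraMap R S (a i j)) x G =
      ∑ β ∈ G.support, algebraMap R S (at_ a (G.coeff β)) * ∏ i, x i ^ β i := by
    unfold evl
    rw [coe_eval₂Hom, eval₂_eq']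
    refine Finset.sum_congr rfl fun β _ => ?_
    congr 1
    have h2 := at_map (IsScalarTower.toAlgHom ℂ R S) a (G.coeff β)
    exact h2.symm
  rw [h1, Finset.mul_sum]
  refine Submodule.sum_mem _ fun β hβ => ?_
  have hdeg : ∑ i, β i = d := by
    have h2 := hG (mem_support_iff.1 hβ)
    rw [← h2, Finsupp.weight_apply, Finsupp.sum_fintype]
    · simp
    · simp
  have h2 : algebraMap R S (r ^ d) * (algebraMap R S (at_ a (G.coeff β)) * ∏ i, x i ^ β i) =
      at_ a (G.coeff β) • ∏ i, y i ^ β i := by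
    have h3 : ∏ i, y i ^ β i = algebraMap R S r ^ d * ∏ i, x i ^ β i := by
      rw [← hdeg, ← Finset.prod_pow_eq_pow_sum, ← Finset.prod_mul_distrib]
      refine Finset.prod_congr rfl fun i _ => ?_
      rw [hy i, mul_pow]
    rw [Algebra.smul_def, h3, map_pow]
    ring
  rw [h2]
  exact Submodule.smul_mem _ _ (Submodule.subset_span ⟨fun i => β i, by rw [hdeg]; exact hM, rfl⟩)

/-- **Integrality of the points with integral values.** -/
theorem cert_int (hINT : S_INT) (hm : 1 ≤ m) {R S : Type} [CommRing R] [CommRing S] [IsDomain S]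
    [Algebra ℂ R] [Algebra ℂ S] [Algebra R S] [IsScalarTower ℂ R S]
    (a : Fin N → (Fin m → Fin N) → R) (x : Fin N → S)
    (hx : ∀ i, ∃ c : R, ev (fun j => algebraMap R S (a i j)) x = algebraMap R S c) (j : Fin N) :
    IsIntegral R (algebraMap R S (at_ a ρ.p ^ ρ.M) * x j) := by
  obtain ⟨r, hr⟩ : ∃ r, r = at_ a ρ.p := ⟨_, rfl⟩
  choose c hc using hx
  rw [← hr]
  refine hINT R S N ρ.M (fun j => algebraMap R S (r ^ ρ.M) * x j) (fun j => ?_) j
  have h1 := cert_eval ρ (fun i j => algebraMap R S (a i j)) x j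
  have h2 : at_ (fun i j => algebraMap R S (a i j)) ρ.p = algebraMap R S r := by
    rw [hr]
    exact (at_map (IsScalarTower.toAlgHom ℂ R S) a ρ.p).symm
  rw [h2] at h1
  have hmM := ρ.hM
  obtain ⟨d, hd⟩ : ∃ d, d = ρ.M - m := ⟨_, rfl⟩
  have hexp : ρ.M * ρ.M = ρ.M + ρ.M * (m - 1) + ρ.M * d := by
    obtain ⟨m', rfl⟩ : ∃ m', m = m' + 1 := ⟨m - 1, by omega⟩
    obtain ⟨q, hq⟩ : ∃ q, ρ.M = m' + 1 + q := ⟨ρ.M - (m' + 1), by omega⟩
    have hdq : d = q := by omega
    rw [hdq]
    have e1 : m' + 1 - 1 = m' := by omega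
    rw [e1]
    calc ρ.M * ρ.M = ρ.M * (m' + 1 + q) := by rw [← hq]
      _ = ρ.M + ρ.M * m' + ρ.M * q := by ring
  have h3 : (algebraMap R S (r ^ ρ.M) * x j) ^ ρ.M =
      ∑ i, (r ^ (ρ.M * (m - 1)) * c i) • (algebraMap R S ((r ^ ρ.M) ^ d) *
        evl (fun i j => algebraMap R S (a i j)) x (ρ.h j i)) := by
    have e1 : (algebraMap R S (r ^ ρ.M) * x j) ^ ρ.M = algebraMap R S (r ^ (ρ.M * (m - 1))) *
        algebraMap R S ((r ^ ρ.M) ^ d) * (algebraMap R S r ^ ρ.M * x j ^ ρ.M) := by
      rw [mul_pow, ← map_pow, ← pow_mul, hexp, pow_add, pow_add, map_mul, map_mul, ← pow_mul,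
        ← map_pow]
      ring
    rw [e1, h1, Finset.mul_sum]
    refine Finset.sum_congr rfl fun i _ => ?_
    rw [hc, Algebra.smul_def, map_mul]
    ring
  rw [h3]
  refine Submodule.sum_mem _ fun i _ => Submodule.smul_mem _ _ ?_
  exact evl_mem a x _ (r ^ ρ.M) (fun j => rfl) (hd ▸ ρ.hom j i) (by omega)

end cert

end Pool.Agent.L7h62.SD
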