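import Pool.Agent.L7h62.SD.Sys

/-!
# Project SD: functions with bounded poles are constant
-/

set_option autoImplicit false
set_option linter.all false

open FF Module Pool.Agent.W602.GT Pool.Agent.W603.LV Pool.Agent.W619.PQ Pool.Agent.Y172
open Pool.Agent.L7h62.MM Polynomial

namespace Pool.Agent.L7h62.SD

/-- the Kodaira dimension is at most zero -/
def KodLeZero (K : Type) [Field K] [Algebra ℂ K] (n : ℕ) : Prop :=
  ∀ r : ℕ, 1 ≤ r → ∀ ω₁ ω₂ : (Fin n → Derivation ℂ K K) → K, IsPluri r ω₁ → IsPluri r ω₂ →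
    (∀ P : Place ℂ K, Divisorial n P → RegAt P ω₁) →
    (∀ P : Place ℂ K, Divisorial n P → RegAt P ω₂) → (∃ D, ω₂ D ≠ 0) →
    ∃ c : ℂ, ∀ D, ω₁ D = algebraMap ℂ K c * ω₂ D

section

variable {k K L : Type} [Field k] [Field K] [Field L] [Algebra k K] [Algebra k L] [Algebra K L]
  [IsScalarTower k K L]

/-- integral over the valuation ring -/
def IntAt (P : Place k K) (c : L) : Prop := ((algebraMap K L).comp P.O.subtype).IsIntegralElem c

theorem IntAt.of_reg {P : Place k K} {f : K} (hf : P.Reg f) : IntAt P (algebraMap K L f) :=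
  RingHom.isIntegralElem_map _ (x := (⟨f, hf⟩ : P.O))

theorem IntAt.add {P : Place k K} {x y : L} (hx : IntAt P x) (hy : IntAt P y) : IntAt P (x + y) :=
  RingHom.IsIntegralElem.add _ hx hy

theorem IntAt.mul {P : Place k K} {x y : L} (hx : IntAt P x) (hy : IntAt P y) : IntAt P (x * y) :=
  RingHom.IsIntegralElem.mul _ hx hy

theorem IntAt.one {P : Place k K} : IntAt P (1 : L) := RingHom.isIntegralElem_one _

theorem IntAt.sum {P : Place k K} {J : Type} (s : Finset J) (f : J → L)
    (h : ∀ j ∈ s, IntAt P (f j)) : IntAt P (∑ j ∈ s, f j) := by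
  classical
  induction s using Finset.induction_on with
  | empty =>
    rw [Finset.sum_empty]
    exact RingHom.isIntegralElem_zero _
  | insert a s ha ih =>
    rw [Finset.sum_insert ha]
    exact (h a (Finset.mem_insert_self _ _)).add (ih fun j hj => h j (Finset.mem_insert_of_mem hj))

theorem IntAt.prod {P : Place k K} {J : Type} (s : Finset J) (f : J → L)
    (h : ∀ j ∈ s, IntAt P (f j)) : IntAt P (∏ j ∈ s, f j) := by
  classical
  induction s using Finset.induction_on with
  | empty =>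
    rw [Finset.prod_empty]
    exact IntAt.one
  | insert a s ha ih =>
    rw [Finset.prod_insert ha]
    exact (h a (Finset.mem_insert_self _ _)).mul (ih fun j hj => h j (Finset.mem_insert_of_mem hj))

/-- the coefficients of the minimal polynomial -/
theorem coeff_reg {P : Place k K} {c : L} {r : K} (hr : r ≠ 0) (hr1 : P.Reg r)
    (hc : IsIntegral K c) (h : IntAt P (algebraMap K L r * c)) (l : ℕ) :
    P.Reg ((minpoly K c).coeff l * r ^ (minpoly K c).natDegree) := by
  letI : Algebra P.O L := ((algebraMap K L).comp P.O.subtype).toAlgebra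
  have hst : IsScalarTower P.O K L := IsScalarTower.of_algebraMap_eq fun _ => rfl
  have h1 : IsIntegral P.O (algebraMap K L r * c) := h
  have h2 := minpoly.isIntegrallyClosed_eq_field_fractions' K h1
  obtain ⟨ν, hν⟩ : ∃ ν, ν = minpoly K (algebraMap K L r * c) := ⟨_, rfl⟩
  obtain ⟨μ, hμ⟩ : ∃ μ, μ = minpoly K c := ⟨_, rfl⟩
  have hνc : ∀ i, P.Reg (ν.coeff i) := by
    intro i
    rw [hν, h2, coeff_map]
    exact ((minpoly P.O (algebraMap K L r * c)).coeff i).2
  have hrc : IsIntegral K (algebraMap K L r * c) := isIntegral_algebraMap.mul hc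
  have hνm : ν.Monic := hν ▸ minpoly.monic hrc
  have hμm : μ.Monic := hμ ▸ minpoly.monic hc
  have e1 : ν ∣ μ.scaleRoots r := by
    rw [hν]
    refine minpoly.dvd K _ ?_
    refine scaleRoots_aeval_eq_zero ?_
    rw [hμ]
    exact minpoly.aeval K c
  have e2 : μ ∣ ν.scaleRoots r⁻¹ := by
    rw [hμ]
    refine minpoly.dvd K _ ?_
    have h3 : c = algebraMap K L r⁻¹ * (algebraMap K L r * c) := by
      rw [← mul_assoc, ← map_mul, inv_mul_cancel₀ hr, map_one, one_mul]
    conv_lhs => rw [h3]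
    refine scaleRoots_aeval_eq_zero ?_
    rw [hν]
    exact minpoly.aeval K _
  have e3 : μ.natDegree ≤ ν.natDegree := by
    have h3 := natDegree_le_of_dvd e2 ((monic_scaleRoots_iff _).2 hνm).ne_zero
    rwa [natDegree_scaleRoots] at h3
  have e4 : ν = μ.scaleRoots r := by
    refine (eq_of_monic_of_dvd_of_natDegree_le hνm ((monic_scaleRoots_iff _).2 hμm) e1 ?_).symm
    rwa [natDegree_scaleRoots]
  rw [← hμ]
  by_cases hl : l ≤ μ.natDegree
  · have h3 := hνc l
    rw [e4, coeff_scaleRoots] at h3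
    have h4 : r ^ μ.natDegree = r ^ (μ.natDegree - l) * r ^ l := by
      rw [← pow_add, Nat.sub_add_cancel hl]
    rw [h4, ← mul_assoc]
    refine P.reg_mul h3 ?_
    clear h4
    induction l with
    | zero => rw [pow_zero]; exact P.reg_one
    | succ l ih =>
      rw [pow_succ]
      exact P.reg_mul (ih (by omega) (by
        have := hνc l
        rwa [e4, coeff_scaleRoots] at this)) hr1
  · rw [coeff_eq_zero_of_natDegree_lt (not_le.1 hl), zero_mul]
    exact P.reg_zero

end

section

variable {K : Type} [Field K] [Algebra ℂ K] [Algebra.EssFiniteType ℂ K] {n m : ℕ}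
  {L : Type} [Field L] [Algebra ℂ L] [Algebra K L] [IsScalarTower ℂ K L]

theorem reg_pow' {k K : Type} [Field k] [Field K] [Algebra k K] {P : Place k K} {f : K}
    (hf : P.Reg f) (q : ℕ) : P.Reg (f ^ q) := by
  induction q with
  | zero => rw [pow_zero]; exact P.reg_one
  | succ q ih => rw [pow_succ]; exact P.reg_mul ih hf

/-- the matrix of regular vector fields in a local frame -/
theorem det_reg {P : Place ℂ K} {y : Fin n → K} {E : Fin n → Derivation ℂ K K} {i0 : Fin n}
    (hl : Loc P y E i0) {D : Fin n → Derivation ℂ K K} (hD : ∀ i, DerReg P (D i)) :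
    P.Reg (Matrix.of fun i j => D i (y j)).det :=
  Pool.Agent.W619.PQ.ge_det P _ fun i j => hD i _ (hl.reg j)

/-- **Functions with poles bounded by the resultant are constant.** -/
theorem const_of_bdd (hn : Algebra.trdeg ℂ K = n) (hκ : KodLeZero K n) (ρ : ResData n m)
    {T : Fin n → Ten K m} (hreg : ∀ i, RegT (n := n) (T i)) (C : Crd ℂ K (Fin n))
    (hne : Th ρ T C.E ≠ 0) {c : L} (hcK : IsIntegral K c) (q : ℕ) (hq : 1 ≤ q)
    (hc : ∀ P : Place ℂ K, Divisorial n P → ∀ (y : Fin n → K) (E : Fin n → Derivation ℂ K K)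
      (i0 : Fin n), Loc P y E i0 → IntAt P (algebraMap K L (Th ρ T E ^ q) * c)) :
    ∃ z : ℂ, c = algebraMap ℂ L z := by
  obtain ⟨μ, hμ⟩ : ∃ μ, μ = minpoly K c := ⟨_, rfl⟩
  have hμm : μ.Monic := hμ ▸ minpoly.monic hcK
  obtain ⟨d, hd⟩ : ∃ d, d = μ.natDegree := ⟨_, rfl⟩
  have hd1 : 1 ≤ d := by
    rw [hd, hμ]
    exact minpoly.natDegree_pos hcK
  have hρk := ρ.hk
  -- the values in local frames
  have hEne : ∀ (P : Place ℂ K) (y : Fin n → K) (E : Fin n → Derivation ℂ K K)
      (i0 : Fin n), Loc P y E i0 → Th ρ T E ≠ 0 := by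
    intro P y E i0 hl h0
    apply hne
    rw [pluri_coord hl.bas hl.dual (th_pluri ρ T) C.E, h0, mul_zero]
  have hcoef : ∀ l, ∃ z : ℂ, μ.coeff l = algebraMap ℂ K z := by
    intro l
    obtain ⟨z, hz⟩ := hκ (ρ.k * (q * d)) (Nat.mul_pos hρk (Nat.mul_pos hq hd1))
      (fun D => μ.coeff l * Th ρ T D ^ (q * d)) (fun D => Th ρ T D ^ (q * d))
      (by
        intro A D
        have h1 := pluri_pow (th_pluri ρ T) (q * d) A D
        change μ.coeff l * (Th ρ T (fun i => ∑ j, A i j • D j)) ^ (q * d) = _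
        change (Th ρ T (fun i => ∑ j, A i j • D j)) ^ (q * d) = _ at h1
        rw [h1]
        ring)
      (pluri_pow (th_pluri ρ T) (q * d))
      (by
        intro P hP D hD
        obtain ⟨y, E, i0, hl⟩ := exists_loc hn hP
        have h1 := coeff_reg (P := P) (c := c) (r := Th ρ T E ^ q)
          (pow_ne_zero _ (hEne P y E i0 hl)) (reg_pow' (th_reg ρ hreg hP E hl.pres) q) hcK
          (hc P hP y E i0 hl) l
        rw [← hμ, ← hd, ← pow_mul] at h1
        change P.Reg (μ.coeff l * Th ρ T D ^ (q * d))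
        rw [pluri_coord hl.bas hl.dual (th_pluri ρ T) D, mul_pow]
        have h2 : μ.coeff l * (((Matrix.of fun i j => D i (y j)).det ^ ρ.k) ^ (q * d) *
            Th ρ T E ^ (q * d)) = ((Matrix.of fun i j => D i (y j)).det ^ ρ.k) ^ (q * d) *
            (μ.coeff l * Th ρ T E ^ (q * d)) := by ring
        rw [h2]
        exact P.reg_mul (reg_pow' (reg_pow' (det_reg hl hD) _) _) h1)
      (fun P hP D hD => reg_pow' (th_reg ρ hreg hP D hD) _)
      ⟨C.E, pow_ne_zero _ hne⟩
    refine ⟨z, ?_⟩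
    exact mul_right_cancel₀ (pow_ne_zero _ hne) (hz C.E)
  choose z hz using hcoef
  have h1 : μ ∈ Polynomial.lifts (algebraMap ℂ K) := by
    rw [Polynomial.lifts_iff_coeff_lifts]
    intro l
    exact ⟨z l, (hz l).symm⟩
  obtain ⟨μ', hμ', -, hμ'm⟩ := Polynomial.lifts_and_natDegree_eq_and_monic h1 hμm
  refine const_of_int (⟨μ', hμ'm, ?_⟩ : IsIntegral ℂ c)
  have h2 : aeval c μ = 0 := by
    rw [hμ]
    exact minpoly.aeval K c
  rw [← hμ', aeval_map_algebraMap] at h2
  exact h2

end

end Pool.Agent.L7h62.SD
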