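import Pool.Agent.L7h62.SD.Add

/-!
# Project SD: the covering with the constant frame
-/

set_option autoImplicit false
set_option linter.all false

open FF Module Pool.Agent.W602.GT Pool.Agent.W603.LV Pool.Agent.W619.PQ Pool.Agent.Y172
open Pool.Agent.L7h62.MM

namespace Pool.Agent.L7h62.SD

section

variable {K : Type} [Field K] [Algebra ℂ K] {n m : ℕ}

/-- a frame over `L` in which the coefficients of the tensors are constant -/
structure Fr (L : Type) [Field L] [Algebra ℂ L] [Algebra K L] (T : Fin n → Ten K m)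
    (C : Crd ℂ K (Fin n)) where
  g : Matrix (Fin n) (Fin n) L
  hg : IsUnit g.det
  b : Fin n → (Fin m → Fin n) → ℂ
  hb : ¬ HasZero b
  hact : ∀ i, act g (coL L T C.E i) = fun j => algebraMap ℂ L (b i j)

/-- restricting a frame to a subfield -/
theorem exists_fr {Ω : Type} [Field Ω] [Algebra ℂ Ω] [Algebra K Ω] [IsScalarTower ℂ K Ω]
    [Algebra.IsAlgebraic K Ω] [Normal K Ω] [Algebra.IsSeparable K Ω] {T : Fin n → Ten K m}
    {C : Crd ℂ K (Fin n)} {g : Matrix (Fin n) (Fin n) Ω} (hg : IsUnit g.det)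
    {b : Fin n → (Fin m → Fin n) → ℂ} (hb : ¬ HasZero b)
    (hact : ∀ i j, act g (coL Ω T C.E i) j = algebraMap ℂ Ω (b i j))
    (h1 : ∀ x ∈ V0 (coL Ω T C.E), ∃ c : Fin n → ℂ, x = g.mulVec fun k => algebraMap ℂ Ω (c k))
    (h2 : ∀ c : Fin n → ℂ, g.mulVec (fun k => algebraMap ℂ Ω (c k)) ∈ V0 (coL Ω T C.E)) :
    ∃ F : IntermediateField K Ω, FiniteDimensional K F ∧ IsGalois K F ∧
      ∃ φ : Fr F T C, φ.b = b ∧
        IntermediateField.adjoin K (Set.range fun p : Fin n × Fin n => φ.g p.1 p.2) = ⊤ := by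
  classical
  obtain ⟨S, hS⟩ : ∃ S : Set Ω, S = Set.range fun p : Fin n × Fin n => g p.1 p.2 := ⟨_, rfl⟩
  obtain ⟨F, hF⟩ : ∃ F : IntermediateField K Ω, F = IntermediateField.adjoin K S := ⟨_, rfl⟩
  have hgF : ∀ i j, g i j ∈ F := fun i j => by
    rw [hF]
    exact IntermediateField.subset_adjoin _ _ (hS ▸ ⟨(i, j), rfl⟩)
  have hfin : FiniteDimensional K F := by
    rw [hF]
    have hSf : Finite S := by
      rw [hS]
      infer_instance
    exact IntermediateField.finiteDimensional_adjoin fun x _ => Algebra.IsIntegral.isIntegral x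
  have hnorm : Normal K F := by
    rw [IntermediateField.normal_iff_forall_map_le]
    intro σ
    rw [hF, IntermediateField.adjoin_map, ← hF, IntermediateField.adjoin_le_iff]
    rintro _ ⟨z, hz, rfl⟩
    rw [hS] at hz
    obtain ⟨⟨i, k⟩, rfl⟩ := hz
    change σ (g i k) ∈ F
    have h3 : (fun j => σ (g j k)) ∈ V0 (coL Ω T C.E) := by
      intro l
      obtain ⟨c, hc⟩ := h2 (Pi.single k 1) l
      refine ⟨c, ?_⟩
      have h4 : (g.mulVec fun k_1 => algebraMap ℂ Ω ((Pi.single k 1 : Fin n → ℂ) k_1)) =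
          fun j => g j k := by
        funext j
        change ∑ s, g j s * algebraMap ℂ Ω ((Pi.single k 1 : Fin n → ℂ) s) = _
        rw [Finset.sum_eq_single k]
        · rw [Pi.single_eq_same, map_one, mul_one]
        · intro s _ hs
          rw [Pi.single_eq_of_ne hs, map_zero, mul_zero]
        · intro h
          exact absurd (Finset.mem_univ _) h
      rw [h4] at hc
      have h5 := congrArg σ hc
      have h6 := ev_map (σ : Ω →+* Ω) (coL Ω T C.E l) fun j => g j k
      have h7 : (fun j => (σ : Ω →+* Ω) (coL Ω T C.E l j)) = coL Ω T C.E l := by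
        funext j
        exact σ.commutes _
      rw [h7] at h6
      have h8 : σ (algebraMap ℂ Ω c) = algebraMap ℂ Ω c := by
        rw [IsScalarTower.algebraMap_apply ℂ K Ω]
        exact σ.commutes _
      rw [h8] at h5
      rw [← h5]
      exact h6.symm
    obtain ⟨c, hc⟩ := h1 _ h3
    have h4 := congrFun hc i
    change σ (g i k) = ∑ s, g i s * algebraMap ℂ Ω (c s) at h4
    rw [h4]
    refine sum_mem fun s _ => mul_mem (hgF i s) ?_
    rw [IsScalarTower.algebraMap_apply ℂ K Ω]
    exact F.algebraMap_mem _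
  have hsep : Algebra.IsSeparable K F := inferInstance
  have hgal : IsGalois K F := IsGalois.mk
  obtain ⟨g', hg'⟩ : ∃ g' : Matrix (Fin n) (Fin n) F, ∀ i j, (g' i j : Ω) = g i j :=
    ⟨fun i j => ⟨g i j, hgF i j⟩, fun _ _ => rfl⟩
  have hmap : g'.map F.val = g := by
    ext i j
    exact hg' i j
  refine ⟨F, hfin, hgal, ⟨g', ?_, b, hb, fun i => ?_⟩, rfl, ?_⟩
  · have h3 : (F.val : F →+* Ω) g'.det = g.det := by
      rw [RingHom.map_det]
      congr 1
    rw [isUnit_iff_ne_zero] at hg ⊢
    intro h4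
    apply hg
    rw [← h3, h4, map_zero]
  · funext j
    apply F.val.injective
    have h3 := act_map (F.val : F →+* Ω) g' (coL F T C.E i) j
    have h4 := hact i j
    change (F.val : F →+* Ω) _ = _
    rw [h3]
    have h5 : g'.map (F.val : F →+* Ω) = g := hmap
    rw [h5]
    exact h4
  · rw [eq_top_iff]
    have h3 : (IntermediateField.adjoin K (Set.range fun p : Fin n × Fin n => g' p.1 p.2)).map
        F.val = F := by
      rw [IntermediateField.adjoin_map]
      conv_rhs => rw [hF, hS]
      congr 1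
      rw [← Set.range_comp]
      congr 1
      funext p
      exact hg' _ _
    intro z _
    have h4 : (z : Ω) ∈ (IntermediateField.adjoin K
        (Set.range fun p : Fin n × Fin n => g' p.1 p.2)).map F.val := by
      rw [h3]
      exact z.2
    obtain ⟨z', hz', hzz⟩ := h4
    have h5 : z' = z := F.val.injective hzz
    rw [← h5]
    exact hz'

end

end Pool.Agent.L7h62.SD
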