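import Mathlib

/-!
# Project SD: forms without common zeros, definitions and statements

Words `j : Fin m → Fin N` stand for the monomials `x (j 0) * ... * x (j (m-1))` (a commutative
monomial is represented by several words; this does no harm and avoids exponents).
-/

set_option autoImplicit false

open MvPolynomial

namespace Pool.Agent.L7h62.SD

/-- The value at `x` of the form of degree `m` in `N` variables with the coefficients `a`. -/
def ev {R : Type*} [CommRing R] {N m : ℕ} (a : (Fin m → Fin N) → R) (x : Fin N → R) : R :=
  ∑ j, a j * ∏ l, x (j l)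

/-- The form `x ↦ ev a (g x)`. -/
def act {R : Type*} [CommRing R] {N m : ℕ} (g : Matrix (Fin N) (Fin N) R)
    (a : (Fin m → Fin N) → R) : (Fin m → Fin N) → R :=
  fun k => ∑ j, a j * ∏ l, g (j l) (k l)

/-- The variables: the coefficients of `N` generic forms of degree `m` in `N` variables. -/
abbrev Idx (N m : ℕ) : Type := Fin N × (Fin m → Fin N)

/-- The universal ring of coefficients. -/
abbrev UR (N m : ℕ) : Type := MvPolynomial (Idx N m) ℂ

/-- The value of a polynomial in the coefficients at the tuple of forms `a`. -/
noncomputable def at_ {N m : ℕ} {L : Type*} [CommRing L] [Algebra ℂ L]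
    (a : Fin N → (Fin m → Fin N) → L) (F : UR N m) : L :=
  aeval (fun p : Idx N m => a p.1 p.2) F

/-- The generic form with index `i`, as a polynomial in `x` over the universal ring. -/
noncomputable def gen (N m : ℕ) (i : Fin N) : MvPolynomial (Fin N) (UR N m) :=
  ∑ j : Fin m → Fin N, C (X (i, j)) * ∏ l, X (j l)

/-- There is a nontrivial common zero. -/
def HasZero {N m : ℕ} {L : Type*} [Field L] (a : Fin N → (Fin m → Fin N) → L) : Prop :=
  ∃ x : Fin N → L, x ≠ 0 ∧ ∀ i, ev (a i) x = 0

/-- The ideal of the polynomials in the coefficients which vanish for all tuples of forms over `ℂ`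
with a nontrivial common zero. -/
noncomputable def Rid (N m : ℕ) : Ideal (UR N m) where
  carrier := {F | ∀ a : Fin N → (Fin m → Fin N) → ℂ, HasZero a → at_ a F = 0}
  add_mem' := by
    intro F G hF hG a ha
    have h1 := hF a ha
    have h2 := hG a ha
    unfold at_ at *
    rw [map_add, h1, h2, add_zero]
  zero_mem' := by
    intro a _
    unfold at_
    rw [map_zero]
  smul_mem' := by
    intro c F hF a ha
    have h1 := hF a ha
    unfold at_ at *
    rw [smul_eq_mul, map_mul, h1, mul_zero]

/-- The function which is `1` at `0` and the variable `u p` at `p + 1`. -/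
noncomputable def uu (n m : ℕ) : Fin (n + 1) → MvPolynomial (Idx (n + 1) m ⊕ Fin n) ℂ :=
  Fin.cons 1 fun p => X (Sum.inr p)

/-- The substitution which makes `(1, u)` a common zero: the coefficient of the word `00...0` in the
`i`-th form is replaced by minus the sum of the other terms at `(1, u)`. -/
noncomputable def Phi (n m : ℕ) : UR (n + 1) m →ₐ[ℂ] MvPolynomial (Idx (n + 1) m ⊕ Fin n) ℂ :=
  aeval fun p : Idx (n + 1) m =>
    if p.2 = (fun _ => 0) then
      - ∑ j ∈ Finset.univ.filter (fun j : Fin m → Fin (n + 1) => j ≠ fun _ => 0),
        X (Sum.inl (p.1, j)) * ∏ l, uu n m (j l)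
    else X (Sum.inl p)

/-- **S_KER.** The ideal `Rid` is the kernel of `Phi`. (If `Phi F = 0` then `F` vanishes at all
tuples with a common zero with `x 0 ≠ 0`. If `x 0 = 0` and `x p ≠ 0`, consider `x + ε e_0`, and
change the coefficients of the words `pp...p` such that it is a common zero: polynomials in `ε`.) -/
def S_KER : Prop := ∀ n m : ℕ, 1 ≤ m → ∀ F : UR (n + 1) m, F ∈ Rid (n + 1) m ↔ Phi n m F = 0

/-- **S_IND.** A polynomial which does not contain the variable `z = (0, 00...0)` and is mapped to
zero by `Phi` is zero. (Take one of least total degree. By the chain rule for `∂ / ∂ u_p`, and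
since the matrix `∂ Phi (i+1, 00..0) / ∂ u_p`, `i, p < n`, has a nonzero determinant (put the
coefficient of the word `(p+1) 0...0` of the form `p + 1` equal to `-1` and all the others equal to
`0`), the partial derivatives of `F` with respect to the variables `(i + 1, 00...0)` are also mapped
to zero, so they are zero, and `Phi F` is essentially `F`.) -/
def S_IND : Prop := ∀ n m : ℕ, 1 ≤ m → ∀ F : UR (n + 1) m,
  ((0, fun _ => 0) : Idx (n + 1) m) ∉ F.vars → Phi n m F = 0 → F = 0

/-- **S_PRI.** A nonzero prime ideal of a polynomial ring, all whose nonzero elements contain the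
variable `z`, is principal. (It contains an irreducible `p`. If `F` is in `I` and `p` does not divide
`F` then, by the lemma of Gauss, they are coprime over the field of fractions of the ring of
polynomials in the other variables, and there is a nonzero element in `I` without `z`.) -/
def S_PRI : Prop := ∀ (σ : Type) [Finite σ] (z : σ) (I : Ideal (MvPolynomial σ ℂ)), I.IsPrime →
  I ≠ ⊥ → (∀ F ∈ I, z ∉ F.vars → F = 0) → ∃ p : MvPolynomial σ ℂ, Prime p ∧ I = Ideal.span {p}

/-- **S_MAC.** If the forms `a` over the algebraically closed field `L` have no nontrivial common zero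
then some element of `Rid` does not vanish at `a`. (By the Nullstellensatz all monomials of some
degree `M` are in the ideal of the forms; so the matrix of Macaulay, with the rows the words of
degree `M` or the monomials, and with the columns `(i, word of degree M - m)`, has full rank and a
maximal minor which is not zero. The same minor vanishes for all tuples with a common zero `x`, as
the values of the monomials at `x` give a relation between the rows.) -/
def S_MAC : Prop := ∀ N m : ℕ, 1 ≤ m → ∀ (L : Type) [Field L] [Algebra ℂ L] [IsAlgClosed L]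
  (a : Fin N → (Fin m → Fin N) → L), ¬ HasZero a → ∃ F ∈ Rid N m, at_ a F ≠ 0

/-- **S_NUL.** Certificates. (Nullstellensatz over `ℂ` for the polynomial `F x_j` and the ideal of the
generic forms in the variables `Idx N m ⊕ Fin N`; then multiply by a power to have the same `M` for all
`j`, and take homogeneous parts in `x`.) -/
def S_NUL : Prop := ∀ N m : ℕ, 1 ≤ m → ∀ F ∈ Rid N m, ∃ M : ℕ, m ≤ M ∧
  ∃ h : Fin N → Fin N → MvPolynomial (Fin N) (UR N m),
    (∀ j i, (h j i).IsHomogeneous (M - m)) ∧
    ∀ j, C (F ^ M) * X j ^ M = ∑ i, h j i * gen N m i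

/-- **S_COV.** If `Rid` is generated by the prime element `p` then `p` is covariant. (For `g` in `GL_N(ℂ)`
the polynomial `a ↦ p (act g a)` is in `Rid` and of the same degree, so it is `χ(g) p`, with `χ` a
polynomial and multiplicative. It is `1` on transvections and `c ^ k` on the diagonal matrices with
one entry `c`, with the same `k` at all places. Then there is a polynomial identity. `k = 0` is
impossible: `p` would be invariant under scalars, hence constant.) -/
def S_COV : Prop := ∀ N m : ℕ, 1 ≤ m → ∀ p : UR N m, Prime p → Rid N m = Ideal.span {p} →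
  ∃ k : ℕ, 1 ≤ k ∧ ∀ (L : Type) [Field L] [Algebra ℂ L] (a : Fin N → (Fin m → Fin N) → L)
    (g : Matrix (Fin N) (Fin N) L), at_ (fun i => act g (a i)) p = g.det ^ k * at_ a p

/-- **S_INT.** A criterion for integrality: the module spanned by the monomials of degree at most
`N (M - 1)` is mapped into itself by all `y j`. -/
def S_INT : Prop := ∀ (R S : Type) [CommRing R] [CommRing S] [IsDomain S] [Algebra R S] (N M : ℕ)
  (y : Fin N → S),
  (∀ j, y j ^ M ∈ Submodule.span R {z : S | ∃ β : Fin N → ℕ, ∑ i, β i < M ∧
    z = ∏ i, y i ^ β i}) → ∀ j, IsIntegral R (y j)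

/-- **S_SUR.** If the forms `a` over the algebraically closed field `L` have no nontrivial common zero
then the points where all their values are constants (in `ℂ`) are not contained in a hyperplane. (The
polynomial ring `B = L[x]` is integral over `A = L[f_1, ..., f_N]`, so the `f_i` are algebraically
independent. Let `c_d(f)` be the last coefficient of an integral equation of `ℓ` over `A`, of least
degree, and choose `λ` in `ℂ^N` with `c_d(λ) ≠ 0`. By lying over there is a point `x` with `f_i(x) =
λ_i`, and `ℓ(x) = 0` would imply `c_d(λ) = 0`.) -/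
def S_SUR : Prop := ∀ N m : ℕ, 1 ≤ m → ∀ (L : Type) [Field L] [Algebra ℂ L] [IsAlgClosed L]
  (a : Fin N → (Fin m → Fin N) → L), ¬ HasZero a → ∀ w : Fin N → L, w ≠ 0 →
  ∃ (x : Fin N → L) (c : Fin N → ℂ), (∀ i, ev (a i) x = algebraMap ℂ L (c i)) ∧
    ∑ j, w j * x j ≠ 0

end Pool.Agent.L7h62.SD
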