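import Pool.Agent.L7h62.SD.Defs

/-!
# Project SD: more statements, and the resultant
-/

set_option autoImplicit false

open MvPolynomial

namespace Pool.Agent.L7h62.SD

/-- **S_LIE.** The stabilizer of a tuple of forms without common zeros has Lie algebra zero. (The
hypothesis says that the derivation `θ = ∑ (B x)_s ∂_s` of `ℂ[x]` kills all the forms `f_i`. Since `ℂ[x]`
is algebraic over the subalgebra generated by the `f_i` (S_NUL, S_MAC and S_INT, or the
Nullstellensatz), `θ = 0`.) -/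
def S_LIE : Prop := ∀ N m : ℕ, 1 ≤ m → ∀ b : Fin N → (Fin m → Fin N) → ℂ, ¬ HasZero b →
  ∀ B : Matrix (Fin N) (Fin N) ℂ,
    (∀ i j, ∑ l, ∑ s, b i (Function.update j l s) * B s (j l) = 0) → B = 0

/-- The resultant and its properties. -/
structure ResData (N m : ℕ) where
  p : UR N m
  k : ℕ
  M : ℕ
  hk : 1 ≤ k
  hM : m ≤ M
  cov : ∀ (L : Type) [Field L] [Algebra ℂ L] (a : Fin N → (Fin m → Fin N) → L)
    (g : Matrix (Fin N) (Fin N) L), at_ (fun i => act g (a i)) p = g.det ^ k * at_ a p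
  ne : ∀ (L : Type) [Field L] [Algebra ℂ L] [IsAlgClosed L]
    (a : Fin N → (Fin m → Fin N) → L), ¬ HasZero a → at_ a p ≠ 0
  h : Fin N → Fin N → MvPolynomial (Fin N) (UR N m)
  hom : ∀ j i, (h j i).IsHomogeneous (M - m)
  cert : ∀ j, C (p ^ M) * X j ^ M = ∑ i, h j i * gen N m i

/-- The existence of the resultant. -/
theorem exists_res (hKER : S_KER) (hIND : S_IND) (hPRI : S_PRI) (hMAC : S_MAC) (hNUL : S_NUL)
    (hCOV : S_COV) (n m : ℕ) (hm : 1 ≤ m) : Nonempty (ResData (n + 1) m) := by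
  have hprime : (Rid (n + 1) m).IsPrime := by
    have h1 : Rid (n + 1) m = RingHom.ker (Phi n m).toRingHom := by
      ext F
      rw [RingHom.mem_ker]
      exact hKER n m hm F
    rw [h1]
    exact RingHom.ker_isPrime _
  -- a tuple without common zeros
  have h0 : ∃ a : Fin (n + 1) → (Fin m → Fin (n + 1)) → ℂ, ¬ HasZero a := by
    refine ⟨fun i j => if j = (fun _ => i) then 1 else 0, ?_⟩
    rintro ⟨x, hx, h⟩
    apply hx
    funext i
    have h2 := h i
    unfold ev at h2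
    rw [Finset.sum_eq_single (fun _ : Fin m => i)] at h2
    · beta_reduce at h2
      rw [if_pos rfl, one_mul, Finset.prod_const, Finset.card_univ, Fintype.card_fin] at h2
      exact eq_zero_of_pow_eq_zero h2
    · intro j _ hj
      beta_reduce
      rw [if_neg hj, zero_mul]
    · intro h
      exact absurd (Finset.mem_univ _) h
  obtain ⟨a0, ha0⟩ := h0
  obtain ⟨F0, hF0, hF0a⟩ := hMAC (n + 1) m hm ℂ a0 ha0
  have hbot : Rid (n + 1) m ≠ ⊥ := by
    intro h
    rw [h, Ideal.mem_bot] at hF0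
    apply hF0a
    rw [hF0]
    unfold at_
    exact map_zero _
  obtain ⟨p, hp, hI⟩ := hPRI (Idx (n + 1) m) (0, fun _ => 0) (Rid (n + 1) m) hprime hbot
    fun F hF hz => hIND n m hm F hz ((hKER n m hm F).1 hF)
  obtain ⟨k, hk, hcov⟩ := hCOV (n + 1) m hm p hp hI
  have hpI : p ∈ Rid (n + 1) m := by
    rw [hI]
    exact Ideal.subset_span rfl
  obtain ⟨M, hM, h, hom, cert⟩ := hNUL (n + 1) m hm p hpI
  refine ⟨⟨p, k, M, hk, hM, hcov, fun L _ _ _ a ha => ?_, h, hom, cert⟩⟩
  obtain ⟨F, hF, hFa⟩ := hMAC (n + 1) m hm L a ha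
  rw [hI, Ideal.mem_span_singleton] at hF
  obtain ⟨G, rfl⟩ := hF
  intro hpa
  apply hFa
  unfold at_ at *
  rw [map_mul, hpa, zero_mul]

end Pool.Agent.L7h62.SD
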