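import Pool.Agent.L7h62.SD.Defs

/-!
# Project SD: reduction of the number of forms
-/

set_option autoImplicit false

namespace Pool.Agent.L7h62.SD

/-- **S_RED.** If the forms `a s`, `s < N`, of the same degree `m` in `n` variables over the
algebraically closed field `L` have no common zero then `n` suitable linear combinations with
coefficients in `ℂ` have no common zero.

Proof. By induction on `N` (for `N ≤ n` take the given forms and zeros). Let `N > n`, and let
`F_s = fp (a s)` be the forms as polynomials in `n` variables. They are algebraically dependent over `L`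
since `N > n` (`MvPolynomial (Fin n) L` has transcendence degree `n`), so `aeval F R = 0` for some `R ≠ 0`;
since all `F_s` are homogeneous of the same degree `m ≥ 1` the homogeneous components of `R` have the
same property, so `R` may be taken homogeneous of degree `d`, and `d ≥ 1`. Since `ℂ` is infinite,
`R(λ) ≠ 0` for some `λ` in `ℂ^N` (compare the proof of S_SUR in L7h26/SD/Sur), and `λ ≠ 0` since
`d ≥ 1`; let `λ_p ≠ 0`. The `N - 1` forms `F_s - (λ_s / λ_p) F_p`, `s ≠ p`, have no common zero: if `x` is
one then the point `(F_s(x))_s` is `t λ` with `t = F_p(x) / λ_p`, so `0 = R(F(x)) = t^d R(λ)`, so `t = 0` and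
all `F_s(x)` are zero, so `x = 0`. -/
def S_RED : Prop := ∀ n m : ℕ, 1 ≤ m → ∀ (L : Type) [Field L] [Algebra ℂ L] [IsAlgClosed L] (N : ℕ)
  (a : Fin N → (Fin m → Fin n) → L), (∀ x : Fin n → L, x ≠ 0 → ∃ s, ev (a s) x ≠ 0) →
  ∃ c : Fin n → Fin N → ℂ, ∀ x : Fin n → L, x ≠ 0 →
    ∃ i, ev (fun j => ∑ s, algebraMap ℂ L (c i s) * a s j) x ≠ 0

end Pool.Agent.L7h62.SD
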