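import Pool.Agent.L7h62.SD.Defs3
import Pool.Agent.L7h26.SD.Sur

/-!
# Project SD: reduction of the number of forms
-/

set_option autoImplicit false
set_option linter.all false

open MvPolynomial

namespace Pool.Agent.L7h62.SD

open Pool.Agent.L7h26.SD (fp fp_hom aeval_fp)

section

variable {n m : ℕ} {L : Type} [Field L] [Algebra ℂ L] [IsAlgClosed L]

theorem ev_add' {R : Type*} [CommRing R] {N m : ℕ} (a b : (Fin m → Fin N) → R) (t : R)
    (x : Fin N → R) : ev (fun j => a j - t * b j) x = ev a x - t * ev b x := by
  unfold ev
  rw [Finset.mul_sum, ← Finset.sum_sub_distrib]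
  refine Finset.sum_congr rfl fun j _ => ?_
  ring

/-- a homogeneous relation -/
theorem exists_rel (hm : 1 ≤ m) {N : ℕ} (hN : n < N) (a : Fin N → (Fin m → Fin n) → L) :
    ∃ (d : ℕ) (R : MvPolynomial (Fin N) L), 1 ≤ d ∧ R ≠ 0 ∧ R.IsHomogeneous d ∧
      aeval (fun s => fp (a s)) R = 0 := by
  classical
  have h1 : ¬ AlgebraicIndependent L fun s => fp (a s) := by
    intro h
    have h2 := h.cardinalMk_le_trdeg
    rw [MvPolynomial.trdeg_of_isDomain] at h2
    simp at h2
    omega
  rw [algebraicIndependent_iff] at h1
  push Not at h1
  obtain ⟨R, hR, hR0⟩ := h1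
  obtain ⟨d, hd⟩ : ∃ d, homogeneousComponent d R ≠ 0 := by
    by_contra hcon
    push Not at hcon
    apply hR0
    rw [← sum_homogeneousComponent R]
    exact Finset.sum_eq_zero fun i _ => hcon i
  have hcomp : ∀ k, (aeval (fun s => fp (a s)) (homogeneousComponent k R)).IsHomogeneous (m * k) :=
    fun k => (homogeneousComponent_isHomogeneous k R).aeval _ fun s => fp_hom (a s)
  have h3 : aeval (fun s => fp (a s)) (homogeneousComponent d R) = 0 := by
    have h4 := congrArg (homogeneousComponent (m * d)) hR
    rw [map_zero] at h4
    rw [← h4]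
    conv_rhs => rw [← sum_homogeneousComponent R, map_sum, map_sum]
    by_cases hdr : d ∈ Finset.range (R.totalDegree + 1)
    · rw [Finset.sum_eq_single d]
      · rw [homogeneousComponent_eq_self (hcomp d)]
      · intro k _ hk
        rw [homogeneousComponent_of_mem (hcomp k), if_neg]
        intro h5
        exact hk (Nat.eq_of_mul_eq_mul_left hm h5.symm)
      · intro h5
        exact absurd hdr h5
    · exfalso
      apply hd
      rw [Finset.mem_range, not_lt] at hdr
      exact homogeneousComponent_eq_zero _ _ (by omega)
  refine ⟨d, _, ?_, hd, homogeneousComponent_isHomogeneous d R, h3⟩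
  by_contra hd0
  have hd1 : d = 0 := by omega
  rw [hd1, homogeneousComponent_zero, aeval_C] at h3
  apply hd
  rw [hd1, homogeneousComponent_zero]
  have h5 : coeff 0 R = 0 := by
    have h6 : (C (coeff 0 R) : MvPolynomial (Fin n) L) = 0 := h3
    exact C_injective _ _ (by rw [h6, C_0])
  rw [h5, C_0]

/-- **S_RED.** -/
theorem s_RED : S_RED := by
  intro n m hm L _ _ _ N
  classical
  induction N with
  | zero =>
    intro a ha
    exact ⟨fun _ _ => 0, fun x hx => by
      obtain ⟨s, -⟩ := ha x hx
      exact s.elim0⟩
  | succ N ih =>
    intro a ha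
    by_cases hN : N + 1 ≤ n
    · refine ⟨fun i s => if (i : ℕ) = s then 1 else 0, fun x hx => ?_⟩
      obtain ⟨s, hs⟩ := ha x hx
      refine ⟨Fin.castLE hN s, ?_⟩
      have h1 : (fun j => ∑ s' : Fin (N + 1), algebraMap ℂ L
          (if ((Fin.castLE hN s : Fin n) : ℕ) = (s' : ℕ) then 1 else 0) * a s' j) = a s := by
        funext j
        rw [Finset.sum_eq_single s]
        · rw [if_pos (by simp), map_one, one_mul]
        · intro s' _ hs'
          rw [if_neg, map_zero, zero_mul]
          intro h2
          apply hs'
          apply Fin.ext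
          rw [← h2]
          simp
        · intro h
          exact absurd (Finset.mem_univ _) h
      rw [h1]
      exact hs
    · obtain ⟨d, R, hd, hR0, hRh, hR⟩ := exists_rel hm (by omega : n < N + 1) a
      obtain ⟨lam, hlam⟩ : ∃ lam : Fin (N + 1) → ℂ,
          eval (fun i => algebraMap ℂ L (lam i)) R ≠ 0 := by
        by_contra hcon
        push Not at hcon
        apply hR0
        refine MvPolynomial.funext_set (fun _ : Fin (N + 1) => Set.range (algebraMap ℂ L))
          (fun _ => Set.infinite_range_of_injective (algebraMap ℂ L).injective) fun x hx => ?_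
        rw [map_zero]
        have h1 : ∀ i, ∃ c : ℂ, algebraMap ℂ L c = x i := fun i => hx i (Set.mem_univ i)
        choose c hc using h1
        rw [← hcon c]
        congr 2
        funext i
        exact (hc i).symm
      have hhom : ∀ (t : L) (z : Fin (N + 1) → L), eval (fun i => t * z i) R = t ^ d * eval z R := by
        intro t z
        rw [eval_eq, eval_eq, Finset.mul_sum]
        refine Finset.sum_congr rfl fun β hβ => ?_
        have h1 : ∏ i ∈ β.support, (t * z i) ^ β i = t ^ d * ∏ i ∈ β.support, z i ^ β i := by
          simp only [mul_pow]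
          rw [Finset.prod_mul_distrib, Finset.prod_pow_eq_pow_sum]
          congr 2
          have h2 := hRh (mem_support_iff.1 hβ)
          have h3 : β.degree = d := by
            rw [Finsupp.degree_eq_weight_one]
            exact h2
          exact h3
        rw [h1]
        ring
      obtain ⟨p, hp⟩ : ∃ p, lam p ≠ 0 := by
        by_contra hcon
        push Not at hcon
        apply hlam
        have h1 : (fun i => algebraMap ℂ L (lam i)) = fun i => (0 : L) * (fun _ => (0 : L)) i := by
          funext i
          rw [hcon i, map_zero, zero_mul]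
        rw [h1, hhom, zero_pow (by omega), zero_mul]
      have hpL : algebraMap ℂ L (lam p) ≠ 0 := by
        rwa [Ne, map_eq_zero]
      obtain ⟨q, hq⟩ : ∃ q : Fin (N + 1) → ℂ, ∀ s, q s = lam s / lam p := ⟨_, fun _ => rfl⟩
      obtain ⟨c', hc'⟩ := ih (fun s j => a (p.succAbove s) j -
        algebraMap ℂ L (q (p.succAbove s)) * a p j) (fun x hx => by
          by_contra hcon
          push Not at hcon
          obtain ⟨s, hs⟩ := ha x hx
          have h1 : ∀ s, ev (a s) x = algebraMap ℂ L (q s) * ev (a p) x := by
            intro s
            rcases Fin.eq_self_or_eq_succAbove p s with h2 | ⟨s', h2⟩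
            · rw [h2, hq, div_self hp, map_one, one_mul]
            · have h3 := hcon s'
              rw [ev_add'] at h3
              rw [h2]
              exact sub_eq_zero.1 h3
          obtain ⟨t, ht⟩ : ∃ t, t = ev (a p) x / algebraMap ℂ L (lam p) := ⟨_, rfl⟩
          have h2 : ∀ s, ev (a s) x = t * algebraMap ℂ L (lam s) := by
            intro s
            rw [h1, hq, ht, map_div₀]
            field_simp
          have h3 : eval (fun s => ev (a s) x) R = 0 := by
            have h4 := congrArg (aeval x) hR
            rw [map_zero, ← AlgHom.comp_apply, comp_aeval] at h4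
            have h5 : (fun i => (aeval x) (fp (a i))) = fun s => ev (a s) x := by
              funext s
              rw [aeval_fp]
              rfl
            rw [h5] at h4
            exact h4
          have h4 : (fun s => ev (a s) x) = fun s => t * algebraMap ℂ L (lam s) := funext h2
          rw [h4, hhom] at h3
          have h5 : t = 0 := by
            rcases mul_eq_zero.1 h3 with h6 | h6
            · exact eq_zero_of_pow_eq_zero h6
            · exact absurd h6 hlam
          apply hs
          rw [h2, h5, zero_mul])
      refine ⟨fun i => p.insertNth (-∑ s, c' i s * q (p.succAbove s)) (c' i), fun x hx => ?_⟩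
      obtain ⟨i, hi⟩ := hc' x hx
      refine ⟨i, ?_⟩
      have h1 : (fun j => ∑ s, algebraMap ℂ L ((p.insertNth (-∑ s, c' i s * q (p.succAbove s))
          (c' i) : Fin (N + 1) → ℂ) s) * a s j) = fun j => ∑ s, algebraMap ℂ L (c' i s) *
          (a (p.succAbove s) j - algebraMap ℂ L (q (p.succAbove s)) * a p j) := by
        funext j
        rw [Fin.sum_univ_succAbove _ p, Fin.insertNth_apply_same]
        simp only [Fin.insertNth_apply_succAbove]
        rw [map_neg, map_sum, neg_mul, Finset.sum_mul, ← Finset.sum_neg_distrib,
          ← Finset.sum_add_distrib]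
        refine Finset.sum_congr rfl fun s _ => ?_
        rw [map_mul]
        ring
      rw [h1]
      exact hi

end

end Pool.Agent.L7h62.SD
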