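import Pool.Agent.L7h62.SD.Main
import Pool.Agent.L7h62.SD.Red
import Pool.Agent.L7h26.SD.Cov
import Pool.Agent.L7h73.SD.Ker
import Pool.Agent.L7h73.SD.Ind
import Pool.Agent.L7h73.SD.Mac
import Pool.Agent.L7h97.SD.Lie
import Pool.Agent.L7h97.SD.Crt
import Pool.Agent.L7h65.SD.Pri

/-!
# Project SD: the theorem without hypotheses on resultants
-/

set_option autoImplicit false
set_option linter.all false

open FF Module Pool.Agent.W602.GT

namespace Pool.Agent.L7h62.SD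

/-- the resultant exists -/
theorem res (n m : ℕ) (hm : 1 ≤ m) : Nonempty (ResData (n + 1) m) :=
  exists_res Pool.Agent.L7h73.SD.s_KER Pool.Agent.L7h73.SD.s_IND Pool.Agent.L7h65.SD.s_PRI
    Pool.Agent.L7h73.SD.s_MAC Pool.Agent.L7h97.SD.s_NUL Pool.Agent.L7h26.SD.s_COV n m hm

/-- **Symmetric differentials without common zeros.** -/
theorem symdiff {K : Type} [Field K] [Algebra ℂ K] [Algebra.EssFiniteType ℂ K] {n m : ℕ}
    (hn : Algebra.trdeg ℂ K = n) (hn1 : 1 ≤ n) (hm : 1 ≤ m) {D : Fin n → Derivation ℂ K K}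
    (h0 : ∀ x : Fin n → AlgebraicClosure K, x ≠ 0 → ∃ T : Ten K m, RegT (n := n) T ∧
      ∑ j : Fin m → Fin n, algebraMap K (AlgebraicClosure K) (T fun l => D (j l)) *
        ∏ l, x (j l) ≠ 0) :
    (∃ r : ℕ, 1 ≤ r ∧ ∃ Θ : (Fin n → Derivation ℂ K K) → K, IsPluri r Θ ∧
      (∀ P : Place ℂ K, Divisorial n P → RegAt P Θ) ∧ ∃ D, Θ D ≠ 0) ∧
    (KodLeZero K n → ∃ F : IntermediateField K (AlgebraicClosure K), FiniteDimensional K F ∧
      IsGalois K F ∧ AbelianLike F n) := by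
  obtain ⟨n', rfl⟩ : ∃ n', n = n' + 1 := ⟨n - 1, by omega⟩
  obtain ⟨ρ⟩ := res n' m hm
  exact main2 hn ρ Pool.Agent.L7h26.SD.s_INT Pool.Agent.L7h97.SD.s_LIE Pool.Agent.L7h26.SD.s_SUR
    s_RED hm h0

end Pool.Agent.L7h62.SD
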