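import Pool.Agent.L7h62.SD.Alg

/-!
# Project SD: constant frames
-/

set_option autoImplicit false
set_option linter.all false

open MvPolynomial

namespace Pool.Agent.L7h62.SD

/-- integral elements over `ℂ` are constants -/
theorem const_of_int {L : Type*} [Field L] [Algebra ℂ L] {z : L} (hz : IsIntegral ℂ z) :
    ∃ c : ℂ, z = algebraMap ℂ L c := by
  have h1 := IsAlgClosed.degree_eq_one_of_irreducible ℂ (minpoly.irreducible hz)
  obtain ⟨c, hc⟩ := minpoly.mem_range_of_degree_eq_one ℂ z h1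
  exact ⟨c, hc.symm⟩

section

variable {N m : ℕ} {L : Type} [Field L] [Algebra ℂ L]
  {a : Fin N → (Fin m → Fin N) → L}

/-- the points where all the values of the forms are constants -/
def V0 (a : Fin N → (Fin m → Fin N) → L) : Set (Fin N → L) :=
  {x | ∀ i, ∃ c : ℂ, ev (a i) x = algebraMap ℂ L c}

theorem V0_smul {x : Fin N → L} (hx : x ∈ V0 a) (t : ℂ) :
    (fun i => algebraMap ℂ L t * x i) ∈ V0 a := by
  intro i
  obtain ⟨c, hc⟩ := hx i
  refine ⟨t ^ m * c, ?_⟩
  rw [ev_smul, hc, map_mul, map_pow]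

theorem ev_zero (hm : 1 ≤ m) (b : (Fin m → Fin N) → L) : ev b (fun _ => 0) = 0 := by
  have h1 := ev_smul b 0 (fun _ => 0)
  simp only [mul_zero] at h1
  rw [h1, zero_pow (by omega), zero_mul]

theorem V0_zero (hm : 1 ≤ m) : (fun _ => 0) ∈ V0 a := fun i =>
  ⟨0, by rw [ev_zero hm, map_zero]⟩

theorem V0_sum (hm : 1 ≤ m) (hadd : ∀ x ∈ V0 a, ∀ x' ∈ V0 a, (fun j => x j + x' j) ∈ V0 a)
    {J : Type} (s : Finset J) (ξ : J → Fin N → L) (hξ : ∀ k, ξ k ∈ V0 a) (y : J → ℂ) :
    (fun j => ∑ k ∈ s, algebraMap ℂ L (y k) * ξ k j) ∈ V0 a := by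
  classical
  induction s using Finset.induction_on with
  | empty =>
    simp only [Finset.sum_empty]
    exact V0_zero hm
  | insert k s hk ih =>
    simp only [Finset.sum_insert hk]
    exact hadd _ (V0_smul (hξ k) (y k)) _ ih

/-- **Constant frames.** -/
theorem frame (ρ : ResData N m) (hINT : S_INT) (hSUR : S_SUR) (hm : 1 ≤ m) [IsAlgClosed L]
    (hsym : ∀ i, Symm (a i)) (h0 : ¬ HasZero a)
    (hadd : ∀ x ∈ V0 a, ∀ x' ∈ V0 a, (fun j => x j + x' j) ∈ V0 a) :
    ∃ g : Matrix (Fin N) (Fin N) L, IsUnit g.det ∧ ∃ b : Fin N → (Fin m → Fin N) → ℂ,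
      (∀ i, Symm (b i)) ∧ ¬ HasZero b ∧ (∀ i j, act g (a i) j = algebraMap ℂ L (b i j)) ∧
      (∀ x ∈ V0 a, ∃ c : Fin N → ℂ, x = g.mulVec fun k => algebraMap ℂ L (c k)) ∧
      ∀ c : Fin N → ℂ, g.mulVec (fun k => algebraMap ℂ L (c k)) ∈ V0 a := by
  classical
  have hchar : CharZero L := charZero_of_injective_algebraMap (algebraMap ℂ L).injective
  -- spanning
  have hspan : Submodule.span L (V0 a) = ⊤ := by
    by_contra hcon
    obtain ⟨f, hf, hle⟩ := Submodule.exists_le_ker_of_lt_top _ (lt_top_iff_ne_top.2 hcon)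
    have hw : (fun j => f (Pi.single j 1)) ≠ 0 := by
      intro h
      apply hf
      refine LinearMap.pi_ext' fun j => LinearMap.ext_ring ?_
      exact congrFun h j
    obtain ⟨x, c, hx, hx0⟩ := hSUR N m hm L a h0 _ hw
    apply hx0
    have h1 : f x = 0 := hle (Submodule.subset_span fun i => ⟨c i, hx i⟩)
    rw [LinearMap.pi_apply_eq_sum_univ] at h1
    rw [← h1]
    refine Finset.sum_congr rfl fun j _ => ?_
    rw [smul_eq_mul, mul_comm]
    congr 2
    funext i
    rw [Pi.single_apply]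
    by_cases hij : i = j
    · rw [if_pos hij, if_pos hij.symm]
    · rw [if_neg hij, if_neg (Ne.symm hij)]
  obtain ⟨s, hs, hs1, hs2⟩ := exists_linearIndependent L (V0 a)
  have hs3 : ⊤ ≤ Submodule.span L (Set.range ((↑) : s → Fin N → L)) := by
    rw [Subtype.range_coe, hs1, hspan]
  let B0 := Module.Basis.mk hs2 hs3
  have hfin : Fintype s := FiniteDimensional.fintypeBasisIndex B0
  have hcard : Fintype.card s = N := by
    rw [← Module.finrank_eq_card_basis B0, Module.finrank_fin_fun]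
  let e : s ≃ Fin N := Fintype.equivFinOfCardEq hcard
  obtain ⟨ξ, hξ⟩ : ∃ ξ : Fin N → Fin N → L, ∀ k, ξ k = (e.symm k).1 := ⟨_, fun _ => rfl⟩
  have hξV : ∀ k, ξ k ∈ V0 a := fun k => by rw [hξ]; exact hs (e.symm k).2
  have hξi : LinearIndependent L ξ := by
    have h1 : ξ = (fun x : s => (x : Fin N → L)) ∘ e.symm := funext hξ
    rw [h1]
    exact hs2.comp _ e.symm.injective
  let g : Matrix (Fin N) (Fin N) L := Matrix.of fun j k => ξ k j
  have hgd : IsUnit g.det := by
    rw [← Matrix.isUnit_iff_isUnit_det, ← Matrix.linearIndependent_cols_iff_isUnit]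
    exact hξi
  have hgv : ∀ c : Fin N → ℂ, g.mulVec (fun k => algebraMap ℂ L (c k)) =
      fun j => ∑ k, algebraMap ℂ L (c k) * ξ k j := by
    intro c
    funext j
    change ∑ k, g j k * algebraMap ℂ L (c k) = _
    refine Finset.sum_congr rfl fun k _ => ?_
    rw [mul_comm]
    rfl
  have hgV : ∀ c : Fin N → ℂ, g.mulVec (fun k => algebraMap ℂ L (c k)) ∈ V0 a := by
    intro c
    rw [hgv]
    exact V0_sum hm hadd Finset.univ ξ hξV c
  have hb : ∀ i j, ∃ c : ℂ, act g (a i) j = algebraMap ℂ L c := by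
    intro i j
    refine symm_const (act_symm (hsym i) g) (fun y => ?_) j
    rw [ev_act]
    exact hgV y i
  choose b hb using hb
  have hbsym : ∀ i, Symm (b i) := by
    intro i π j
    apply (algebraMap ℂ L).injective
    rw [← hb, ← hb]
    exact act_symm (hsym i) g π j
  have hevb : ∀ i (x : Fin N → L), ev (fun j => algebraMap ℂ L (b i j)) x = ev (a i) (g.mulVec x) := by
    intro i x
    rw [← ev_act]
    congr 1
    funext j
    exact (hb i j).symm
  have hb0 : ¬ HasZero b := by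
    rintro ⟨y, hy, h⟩
    apply h0
    refine ⟨g.mulVec fun k => algebraMap ℂ L (y k), ?_, fun i => ?_⟩
    · intro h1
      apply hy
      have h2 : (fun k => algebraMap ℂ L (y k)) = 0 := by
        have h3 := congrArg (fun v => g⁻¹.mulVec v) h1
        simp only [Matrix.mulVec_mulVec, Matrix.nonsing_inv_mul g hgd, Matrix.one_mulVec,
          Matrix.mulVec_zero] at h3
        exact h3
      funext k
      have h3 := congrFun h2 k
      exact (map_eq_zero _).1 h3
    · rw [← hevb]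
      have h1 := ev_map (algebraMap ℂ L) (b i) y
      rw [h i, map_zero] at h1
      exact h1.symm
  refine ⟨g, hgd, b, hbsym, hb0, hb, fun x hx => ?_, hgV⟩
  obtain ⟨z, hz⟩ : ∃ z, z = g⁻¹.mulVec x := ⟨_, rfl⟩
  have hzx : g.mulVec z = x := by
    rw [hz, Matrix.mulVec_mulVec, Matrix.mul_nonsing_inv g hgd, Matrix.one_mulVec]
  have hp := ρ.ne ℂ b hb0
  have h1 : ∀ j, ∃ c : ℂ, z j = algebraMap ℂ L c := by
    intro j
    have h2 := cert_int ρ hINT hm (R := ℂ) (S := L) b z (fun i => by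
      rw [hevb, hzx]
      exact hx i) j
    obtain ⟨c, hc⟩ := const_of_int h2
    refine ⟨(at_ b ρ.p ^ ρ.M)⁻¹ * c, ?_⟩
    rw [map_mul, ← hc, map_inv₀, ← mul_assoc, inv_mul_cancel₀, one_mul]
    rw [Ne, map_eq_zero]
    exact pow_ne_zero _ hp
  choose c hc using h1
  refine ⟨c, ?_⟩
  rw [← hzx]
  congr 1
  funext k
  exact hc k

end

end Pool.Agent.L7h62.SD
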