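import Pool.Agent.L7h62.MM.Reg

/-!
# Project SD: the transversal logarithmic vector field
-/

set_option autoImplicit false
set_option linter.all false

open FF Module Pool.Agent.W602.GT Pool.Agent.W603.LV Pool.Agent.W619.PQ Pool.Agent.Y172
open Pool.Agent.L7h62.MM Polynomial

namespace Pool.Agent.L7h62.SD

section

variable {k K L : Type} [Field k] [CharZero k] [Field K] [Field L] [Algebra k K] [Algebra k L]
  [Algebra K L] [IsScalarTower k K L] {n : ℕ}
  {P : Place k K} {Q : Place k L} {e : ℕ}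

/-- the residues are algebraic -/
theorem res_alg [Algebra.IsAlgebraic K L] (h : Over Q P e) {u : L} (hu : Q.Reg u) :
    ∃ G : P.RF[X], G ≠ 0 ∧ eval₂ h.resMap.toRingHom (Q.red u) G = 0 := by
  obtain ⟨g, hg0, hg⟩ := Algebra.IsAlgebraic.isAlgebraic (R := K) u
  obtain ⟨i0, hi0, hmin⟩ := Finset.exists_min_image g.support (fun i => P.ord (g.coeff i))
    (support_nonempty.2 hg0)
  obtain ⟨c, hc⟩ : ∃ c, c = g.coeff i0 := ⟨_, rfl⟩
  have hc0 : c ≠ 0 := hc ▸ mem_support_iff.1 hi0
  have hreg : ∀ i, P.Reg (c⁻¹ * g.coeff i) := by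
    intro i
    by_cases hi : g.coeff i = 0
    · rw [hi, mul_zero]
      exact P.reg_zero
    · right
      rw [P.ord_mul (inv_ne_zero hc0) hi, P.ord_inv, hc]
      have := hmin i (mem_support_iff.2 hi)
      omega
  obtain ⟨G, hG⟩ : ∃ G : P.O[X], G.map P.O.subtype = C c⁻¹ * g := by
    have h1 : C c⁻¹ * g ∈ Polynomial.lifts P.O.subtype := by
      rw [Polynomial.lifts_iff_coeff_lifts]
      intro i
      rw [coeff_C_mul]
      exact ⟨⟨_, hreg i⟩, rfl⟩
    obtain ⟨G, hG⟩ := Polynomial.mem_lifts _ |>.1 h1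
    exact ⟨G, hG⟩
  let φ : P.O →+* Q.O := ((algebraMap K L).comp P.O.subtype).codRestrict Q.O
    (fun f => h.reg.2 f.2)
  have hE : eval₂ φ (⟨u, hu⟩ : Q.O) G = 0 := by
    apply Subtype.ext
    have h2 := hom_eval₂ G φ Q.O.subtype (⟨u, hu⟩ : Q.O)
    have h3 : Q.O.subtype.comp φ = (algebraMap K L).comp P.O.subtype := rfl
    rw [h3, ← eval₂_map, hG, eval₂_mul] at h2
    have h4 : eval₂ (algebraMap K L) (Q.O.subtype (⟨u, hu⟩ : Q.O)) g = 0 := hg
    rw [h4, mul_zero] at h2
    exact h2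
  have h5 := hom_eval₂ G φ Q.resHom (⟨u, hu⟩ : Q.O)
  have h6 : Q.resHom.comp φ = h.resMap.toRingHom.comp P.resHom := by
    ext f
    have h7 := h.resMap_red (f := (f : K)) f.2
    rw [P.red_of_reg f.2, Q.red_of_reg (h.reg.2 f.2)] at h7
    exact h7.symm
  rw [hE, map_zero, h6, ← eval₂_map, ← Q.red_of_reg hu] at h5
  refine ⟨G.map P.resHom, fun h0 => ?_, h5.symm⟩
  have h7 := congrArg (fun p => coeff p i0) h0
  simp only [coeff_map, coeff_zero] at h7
  have h8 : G.coeff i0 = 1 := by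
    apply Subtype.ext
    have h9 := congrArg (fun p => coeff p i0) hG
    simp only [coeff_map, coeff_C_mul] at h9
    rw [← hc, inv_mul_cancel₀ hc0] at h9
    exact h9
  rw [h8, map_one] at h7
  exact one_ne_zero h7

/-- the residue is a simple root -/
theorem res_sep [Algebra.IsAlgebraic K L] (h : Over Q P e) {u : L} (hu : Q.Reg u) :
    ∃ G : P.O[X], Ge Q 1 (eval₂ ((algebraMap K L).comp P.O.subtype) u G) ∧
      eval₂ ((algebraMap K L).comp P.O.subtype) u (derivative G) ≠ 0 ∧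
      Q.ord (eval₂ ((algebraMap K L).comp P.O.subtype) u (derivative G)) = 0 := by
  letI : Algebra P.RF Q.RF := h.resMap.toRingHom.toAlgebra
  obtain ⟨G1, hG10, hG1⟩ := res_alg h hu
  have halg : IsAlgebraic P.RF (Q.red u) := ⟨G1, hG10, hG1⟩
  have hcP : CharZero P.RF := charZero_of_injective_algebraMap (algebraMap k P.RF).injective
  obtain ⟨μ, hμ⟩ : ∃ μ, μ = minpoly P.RF (Q.red u) := ⟨_, rfl⟩
  have hsep : μ.Separable := by
    rw [hμ]
    exact (minpoly.irreducible halg.isIntegral).separable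
  have hμ0 : aeval (Q.red u) μ = 0 := by
    rw [hμ]
    exact minpoly.aeval _ _
  have hμ1 : aeval (Q.red u) (derivative μ) ≠ 0 := hsep.aeval_derivative_ne_zero hμ0
  obtain ⟨G, hG⟩ : ∃ G : P.O[X], G.map P.resHom = μ :=
    Polynomial.map_surjective _ P.resHom_surjective μ
  let φ : P.O →+* Q.O := ((algebraMap K L).comp P.O.subtype).codRestrict Q.O
    (fun f => h.reg.2 f.2)
  have h3 : Q.O.subtype.comp φ = (algebraMap K L).comp P.O.subtype := rfl
  have h6 : Q.resHom.comp φ = h.resMap.toRingHom.comp P.resHom := by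
    ext f
    have h7 := h.resMap_red (f := (f : K)) f.2
    rw [P.red_of_reg f.2, Q.red_of_reg (h.reg.2 f.2)] at h7
    exact h7.symm
  have hkey : ∀ H : P.O[X], ∃ hr : Q.Reg (eval₂ ((algebraMap K L).comp P.O.subtype) u H),
      Q.red (eval₂ ((algebraMap K L).comp P.O.subtype) u H) = aeval (Q.red u) (H.map P.resHom) := by
    intro H
    have h2 := hom_eval₂ H φ Q.O.subtype (⟨u, hu⟩ : Q.O)
    rw [h3] at h2
    have h4 : Q.Reg (eval₂ ((algebraMap K L).comp P.O.subtype) u H) := by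
      change _ = eval₂ ((algebraMap K L).comp P.O.subtype) u H at h2
      rw [← h2]
      exact (eval₂ φ (⟨u, hu⟩ : Q.O) H).2
    refine ⟨h4, ?_⟩
    have h5 := hom_eval₂ H φ Q.resHom (⟨u, hu⟩ : Q.O)
    rw [h6, ← eval₂_map, ← Q.red_of_reg hu] at h5
    rw [Q.red_of_reg h4]
    refine Eq.trans ?_ h5
    congr 1
    apply Subtype.ext
    exact h2.symm
  refine ⟨G, ?_, ?_⟩
  · obtain ⟨hr, h4⟩ := hkey G
    rw [hG, hμ0, Q.red_eq_zero_iff hr] at h4
    rcases h4 with h4 | h4
    · left; exact h4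
    · right; omega
  · obtain ⟨hr, h4⟩ := hkey (derivative G)
    rw [← derivative_map, hG] at h4
    have h5 : Q.red (eval₂ ((algebraMap K L).comp P.O.subtype) u (derivative G)) ≠ 0 := by
      rw [h4]
      exact hμ1
    rw [Ne, Q.red_eq_zero_iff hr] at h5
    push Not at h5
    refine ⟨h5.1, ?_⟩
    have := (Q.reg_iff h5.1).1 hr
    have := h5.2
    omega

variable {y : Fin n → K} {E : Fin n → Derivation k K K} {i0 : Fin n}

/-- the derivative of the value of a polynomial -/
theorem der_eval_small (h : Over Q P e) (hl : Loc P y E i0) {E' : Derivation k L L}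
    (hE' : ∀ f, E' (algebraMap K L f) = algebraMap K L (E i0 f)) {u : L} (hu : Q.Reg u)
    (G : P.O[X]) :
    Ge Q 1 ((algebraMap K L (y i0) • E') (eval₂ ((algebraMap K L).comp P.O.subtype) u G) -
      eval₂ ((algebraMap K L).comp P.O.subtype) u (derivative G) *
        (algebraMap K L (y i0) • E') u) := by
  induction G using Polynomial.induction_on' with
  | add p q hp hq =>
    rw [eval₂_add, map_add, derivative_add, eval₂_add, add_mul]
    have h1 := hp.add hq
    convert h1 using 1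
    ring
  | monomial i c =>
    rw [eval₂_monomial, derivative_monomial, eval₂_monomial, Derivation.leibniz,
      Derivation.leibniz_pow]
    obtain ⟨c', hc'⟩ : ∃ c', c' = algebraMap K L (c : K) := ⟨_, rfl⟩
    have e1 : ((algebraMap K L).comp P.O.subtype) c = c' := hc'.symm
    have e2 : ((algebraMap K L).comp P.O.subtype) (c * (i : P.O)) = c' * i := by
      rw [map_mul, e1, map_natCast]
    rw [e1, e2]
    obtain ⟨d, hd⟩ : ∃ d, d = (algebraMap K L (y i0) • E') u := ⟨_, rfl⟩
    obtain ⟨d', hd'⟩ : ∃ d', d' = (algebraMap K L (y i0) • E') c' := ⟨_, rfl⟩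
    rw [← hd, ← hd']
    have e3 : c' • (i • (u ^ (i - 1) • d)) + u ^ i • d' - c' * i * u ^ (i - 1) * d = u ^ i * d' := by
      simp only [smul_eq_mul, nsmul_eq_mul]
      ring
    rw [e3]
    have h1 : Ge Q 0 (u ^ i) := by
      have := Ge.pow (P := Q) (N := 0) (show Ge Q 0 u from hu) i
      simpa using this
    have h2 : Ge Q 1 d' := by
      rw [hd', hc']
      change Ge Q 1 (algebraMap K L (y i0) * E' (algebraMap K L (c : K)))
      rw [hE', ← map_mul]
      have h3 : Ge P 1 (y i0 * E i0 (c : K)) := by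
        have h4 : Ge P 1 (y i0) := Or.inr (by rw [hl.unif])
        have h5 : Ge P 0 (E i0 (c : K)) := hl.pres i0 _ c.2
        simpa using h4.mul h5
      have h4 := (over_ge h).2 h3
      refine h4.mono ?_
      have := h.1
      have : (1 : ℤ) ≤ e := by exact_mod_cast this
      omega
    simpa using h1.mul h2

/-- the lift of the transversal logarithmic field is logarithmic -/
theorem lam_log (h : Over Q P e) (hl : Loc P y E i0) {E' : Derivation k L L}
    (hE' : ∀ f, E' (algebraMap K L f) = algebraMap K L (E i0 f)) [FiniteDimensional K L] :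
    DerLog Q (algebraMap K L (y i0) • E') := by
  refine lift_log h (hl.log i0) fun f => ?_
  have h1 : lc y i0 i0 = y i0 := by
    unfold lc
    rw [if_pos rfl]
  rw [h1]
  change algebraMap K L (y i0) * E' (algebraMap K L f) = algebraMap K L (y i0 * E i0 f)
  rw [hE', map_mul]

/-- **The transversal logarithmic field is zero on the residue field.** -/
theorem lam_small (h : Over Q P e) (hl : Loc P y E i0) {E' : Derivation k L L}
    (hE' : ∀ f, E' (algebraMap K L f) = algebraMap K L (E i0 f)) [FiniteDimensional K L]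
    {u : L} (hu : Q.Reg u) : Ge Q 1 ((algebraMap K L (y i0) • E') u) := by
  obtain ⟨G, h1, h2, h3⟩ := res_sep h hu
  have h4 := der_eval_small h hl hE' hu G
  have h5 : Ge Q 1 ((algebraMap K L (y i0) • E')
      (eval₂ ((algebraMap K L).comp P.O.subtype) u G)) := DerLog.ge (lam_log h hl hE') h1
  have h6 := h5.sub h4
  rw [sub_sub_cancel] at h6
  refine Ge.of_mul' h2 h3 ?_
  simpa using h6

/-- the logarithmic derivative -/
theorem lam_ord (h : Over Q P e) (hl : Loc P y E i0) {E' : Derivation k L L}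
    (hE' : ∀ f, E' (algebraMap K L f) = algebraMap K L (E i0 f)) [FiniteDimensional K L]
    {x : L} (hx : x ≠ 0) (hx0 : Q.ord x ≠ 0) :
    E' x ≠ 0 ∧ Q.ord (E' x) = Q.ord x - e := by
  obtain ⟨Λ, hΛ⟩ : ∃ Λ, Λ = algebraMap K L (y i0) • E' := ⟨_, rfl⟩
  have hlog : DerLog Q Λ := hΛ ▸ lam_log h hl hE'
  have hsm : ∀ u, Q.Reg u → Ge Q 1 (Λ u) := fun u hu => hΛ ▸ lam_small h hl hE' hu
  have he : (1 : ℤ) ≤ e := by exact_mod_cast h.1
  have ht0 : algebraMap K L (y i0) ≠ 0 := by
    rw [Ne, map_eq_zero]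
    exact hl.ne
  have ht : Q.ord (algebraMap K L (y i0)) = e := by
    rw [h.2, hl.unif, mul_one]
  have hΛt : Λ (algebraMap K L (y i0)) = algebraMap K L (y i0) := by
    rw [hΛ]
    change algebraMap K L (y i0) * E' (algebraMap K L (y i0)) = _
    rw [hE', hl.dual, if_pos rfl, map_one, mul_one]
  -- `x ^ e` and `t ^ a` differ by a unit
  obtain ⟨a, ha⟩ : ∃ a, a = Q.ord x := ⟨_, rfl⟩
  obtain ⟨t, htt⟩ : ∃ t, t = algebraMap K L (y i0) := ⟨_, rfl⟩
  rw [← htt] at ht0 ht hΛt
  obtain ⟨w, hw⟩ : ∃ w, w = x ^ (e : ℤ) * t ^ (-a) := ⟨_, rfl⟩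
  have hw0 : w ≠ 0 := by
    rw [hw]
    exact mul_ne_zero (zpow_ne_zero _ hx) (zpow_ne_zero _ ht0)
  have hwo : Q.ord w = 0 := by
    rw [hw, Q.ord_mul (zpow_ne_zero _ hx) (zpow_ne_zero _ ht0), Q.ord_zpow, Q.ord_zpow, ht, ha]
    ring
  have h1 : Ge Q 1 (Λ w / w) := by
    have h2 := hsm w (Or.inr hwo.ge)
    have h3 : Ge Q 0 w⁻¹ := Or.inr (by rw [Q.ord_inv, hwo]; simp)
    have h4 := h2.mul h3
    rw [add_zero, ← div_eq_mul_inv] at h4
    exact h4
  -- logarithmic derivatives
  have hz : ∀ (z : L) (m : ℤ), z ≠ 0 → Λ (z ^ m) / z ^ m = m * (Λ z / z) := by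
    intro z m hz
    have h2 : Λ (z ^ m) = m * z ^ (m - 1) * Λ z := by
      rw [Derivation.leibniz_zpow]
      simp only [smul_eq_mul, zsmul_eq_mul]
      ring
    rw [h2, zpow_sub_one₀ hz]
    field_simp
  have h2 : Λ w / w = e * (Λ x / x) - a := by
    have h3 : Λ w / w = Λ (x ^ (e : ℤ)) / x ^ (e : ℤ) + Λ (t ^ (-a)) / t ^ (-a) := by
      have e1 : x ^ (e : ℤ) ≠ 0 := zpow_ne_zero _ hx
      have e2 : t ^ (-a) ≠ 0 := zpow_ne_zero _ ht0
      rw [hw, Derivation.leibniz]
      simp only [smul_eq_mul]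
      field_simp
      ring
    rw [h3, hz x _ hx, hz t _ ht0, hΛt, div_self ht0]
    push_cast
    ring
  rw [h2] at h1
  -- so the logarithmic derivative of `x` is a unit
  have hcL : CharZero L := charZero_of_injective_algebraMap (algebraMap k L).injective
  have ha0 : ((a : ℤ) : L) ≠ 0 := by
    rw [Ne, Int.cast_eq_zero, ha]
    exact hx0
  have hao : Q.ord ((a : ℤ) : L) = 0 := by
    have h3 := Q.ord_const (c := ((a : ℤ) : k)) (by
      rw [Ne, Int.cast_eq_zero, ha]
      exact hx0)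
    rwa [map_intCast] at h3
  have h3 : Λ x / x ≠ 0 ∧ Q.ord (e * (Λ x / x)) = 0 := by
    rcases h1 with h1 | h1
    · have h4 : e * (Λ x / x) = a := sub_eq_zero.1 h1
      refine ⟨fun h5 => ?_, by rw [h4, hao]⟩
      rw [h5, mul_zero] at h4
      exact ha0 h4.symm
    · have h5 : (e : L) * (Λ x / x) - a ≠ 0 := by
        intro h6
        rw [h6, Q.ord_zero] at h1
        omega
      obtain ⟨h6, h7⟩ := Q.ord_add_eq ha0 h5 (by omega)
      rw [add_sub_cancel] at h6 h7
      exact ⟨right_ne_zero_of_mul h6, by rw [h7, hao]⟩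
  obtain ⟨h4, h5⟩ := h3
  have he0 : (e : L) ≠ 0 := by
    have := h.1
    exact_mod_cast this.ne'
  have heo : Q.ord ((e : ℕ) : L) = 0 := by
    have h6 := Q.ord_const (c := ((e : ℕ) : k)) (by
      have := h.1
      exact_mod_cast this.ne')
    rwa [map_natCast] at h6
  rw [Q.ord_mul he0 h4, heo, zero_add] at h5
  have h6 : Λ x ≠ 0 := fun h7 => h4 (by rw [h7, zero_div])
  rw [Q.ord_div h6 hx] at h5
  have h7 : Λ x = t * E' x := by
    rw [hΛ, htt]
    rfl
  have h8 : E' x ≠ 0 := fun h9 => h6 (by rw [h7, h9, mul_zero])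
  refine ⟨h8, ?_⟩
  rw [h7, Q.ord_mul ht0 h8, ht] at h5
  omega

/-- **A ring which is stable under the transversal field.** -/
theorem ram_one (h : Over Q P e) (hl : Loc P y E i0) {E' : Derivation k L L}
    (hE' : ∀ f, E' (algebraMap K L f) = algebraMap K L (E i0 f)) [FiniteDimensional K L]
    (R : Set L) (hR : ∀ x ∈ R, Q.Reg x) (hR' : ∀ x ∈ R, E' x ∈ R)
    (hfr : ∀ z : L, z ≠ 0 → ∃ x ∈ R, ∃ f : K, f ≠ 0 ∧ x = algebraMap K L f * z) : e = 1 := by
  have he : (1 : ℤ) ≤ e := by exact_mod_cast h.1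
  have h1 : ∀ N : ℕ, ∀ x ∈ R, x ≠ 0 → Q.ord x = N → (e : ℤ) ∣ N := by
    intro N
    induction N using Nat.strong_induction_on with
    | _ N ih =>
      intro x hx hx0 hxN
      by_cases hN : N = 0
      · rw [hN]
        simp
      · obtain ⟨h2, h3⟩ := lam_ord h hl hE' hx0 (by
          rw [hxN]
          exact_mod_cast hN)
        have h4 := (Q.reg_iff h2).1 (hR _ (hR' x hx))
        rw [h3, hxN] at h4
        have h5 : e ≤ N := by
          have : (e : ℤ) ≤ N := by omega
          exact_mod_cast this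
        have h6 := ih (N - e) (by omega) _ (hR' x hx) h2 (by
          rw [h3, hxN]
          push_cast [h5]
          ring)
        have h7 : ((N - e : ℕ) : ℤ) = N - e := by
          push_cast [h5]
          ring
        rw [h7] at h6
        have h8 := dvd_add h6 (dvd_refl (e : ℤ))
        rwa [sub_add_cancel] at h8
  obtain ⟨z, hz0, hz⟩ := Q.surj
  obtain ⟨x, hx, f, hf, hxf⟩ := hfr z hz0
  have hf' : algebraMap K L f ≠ 0 := by
    rwa [Ne, map_eq_zero]
  have hx0 : x ≠ 0 := by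
    rw [hxf]
    exact mul_ne_zero hf' hz0
  have h2 := (Q.reg_iff hx0).1 (hR x hx)
  obtain ⟨N, hN⟩ := Int.eq_ofNat_of_zero_le h2
  have h3 := h1 N x hx hx0 hN
  have h4 : Q.ord x = e * P.ord f + 1 := by
    rw [hxf, Q.ord_mul hf' hz0, h.2, hz]
  rw [← hN, h4] at h3
  have h5 : (e : ℤ) ∣ 1 := (dvd_add_right (Dvd.intro _ rfl)).1 h3
  have h6 := Int.le_of_dvd one_pos h5
  have : (e : ℤ) = 1 := by omega
  exact_mod_cast this

end

end Pool.Agent.L7h62.SD
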