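import Pool.Agent.L7h62.SD.Alg

/-!
# Project SD: differentiating the relation between the frames
-/

set_option autoImplicit false
set_option linter.all false

namespace Pool.Agent.L7h62.SD

/-- the Leibniz rule for products -/
theorem der_prod {k L : Type} [Field k] [Field L] [Algebra k L] (D : Derivation k L L) {J : Type}
    [DecidableEq J] (s : Finset J) (f : J → L) :
    D (∏ l ∈ s, f l) = ∑ l ∈ s, (∏ l' ∈ s.erase l, f l') * D (f l) := by
  induction s using Finset.induction_on with
  | empty => rw [Finset.prod_empty, Finset.sum_empty, D.map_one_eq_zero]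
  | insert a s ha ih =>
    rw [Finset.prod_insert ha, D.leibniz, ih, Finset.sum_insert ha, Finset.erase_insert ha,
      smul_eq_mul, smul_eq_mul, Finset.mul_sum, add_comm]
    congr 1
    refine Finset.sum_congr rfl fun l hl => ?_
    have hla : l ≠ a := fun h => ha (h ▸ hl)
    rw [Finset.erase_insert_of_ne (Ne.symm hla), Finset.prod_insert (by
      rw [Finset.mem_erase]
      push Not
      intro _
      exact ha), mul_assoc]

section

variable {L : Type} [Field L] [Algebra ℂ L] {n m : ℕ}

/-- the derivative of the form along a linear vector field -/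
def lie (b : (Fin m → Fin n) → ℂ) (B : Matrix (Fin n) (Fin n) L) (j : Fin m → Fin n) : L :=
  ∑ l, ∑ s, algebraMap ℂ L (b (Function.update j l s)) * B s (j l)

/-- exchanging a letter of the word -/
def exch (l : Fin m) : Equiv.Perm ((Fin m → Fin n) × Fin n) :=
  Function.Involutive.toPerm (fun p => (Function.update p.1 l p.2, p.1 l)) (by
    intro p
    simp)

theorem exch_apply (l : Fin m) (p : (Fin m → Fin n) × Fin n) :
    exch l p = (Function.update p.1 l p.2, p.1 l) := rfl

/-- **Differentiating a substitution.** -/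
theorem der_act (D : Derivation ℂ L L) (w B : Matrix (Fin n) (Fin n) L)
    (hB : ∀ s t, D (w s t) = ∑ r, B s r * w r t) (b : (Fin m → Fin n) → ℂ) (k : Fin m → Fin n) :
    D (act w (fun j => algebraMap ℂ L (b j)) k) = act w (lie b B) k := by
  classical
  obtain ⟨W, hW⟩ : ∃ W : (Fin m → Fin n) → L, ∀ j, W j = ∏ l, w (j l) (k l) := ⟨_, fun _ => rfl⟩
  have hWu : ∀ (j : Fin m → Fin n) (l : Fin m) (s : Fin n), W (Function.update j l s) =
      (∏ l' ∈ Finset.univ.erase l, w (j l') (k l')) * w s (k l) := by
    intro j l s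
    rw [hW, ← Finset.prod_erase_mul Finset.univ _ (Finset.mem_univ l), Function.update_self]
    congr 1
    refine Finset.prod_congr rfl fun l' hl' => ?_
    rw [Function.update_of_ne (Finset.ne_of_mem_erase hl')]
  have h1 : D (act w (fun j => algebraMap ℂ L (b j)) k) =
      ∑ l, ∑ p : (Fin m → Fin n) × Fin n, algebraMap ℂ L (b p.1) * B (p.1 l) p.2 *
        W (Function.update p.1 l p.2) := by
    unfold act
    rw [map_sum]
    have h2 : ∀ j : Fin m → Fin n, D (algebraMap ℂ L (b j) * ∏ l, w (j l) (k l)) =
        ∑ l, ∑ s, algebraMap ℂ L (b j) * B (j l) s * W (Function.update j l s) := by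
      intro j
      rw [D.leibniz, D.map_algebraMap, smul_zero, add_zero, der_prod, smul_eq_mul, Finset.mul_sum]
      refine Finset.sum_congr rfl fun l _ => ?_
      rw [hB, Finset.mul_sum, Finset.mul_sum]
      refine Finset.sum_congr rfl fun s _ => ?_
      rw [hWu]
      ring
    rw [Finset.sum_congr rfl fun j _ => h2 j, Finset.sum_comm]
    refine Finset.sum_congr rfl fun l _ => ?_
    rw [Fintype.sum_prod_type]
  have h3 : act w (lie b B) k =
      ∑ l, ∑ p : (Fin m → Fin n) × Fin n, algebraMap ℂ L (b (Function.update p.1 l p.2)) *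
        B p.2 (p.1 l) * W p.1 := by
    unfold act lie
    have h2 : ∀ j : Fin m → Fin n, (∑ l, ∑ s, algebraMap ℂ L (b (Function.update j l s)) *
        B s (j l)) * ∏ l, w (j l) (k l) =
        ∑ l, ∑ s, algebraMap ℂ L (b (Function.update j l s)) * B s (j l) * W j := by
      intro j
      rw [Finset.sum_mul, hW]
      refine Finset.sum_congr rfl fun l _ => ?_
      rw [Finset.sum_mul]
    rw [Finset.sum_congr rfl fun j _ => h2 j, Finset.sum_comm]
    refine Finset.sum_congr rfl fun l _ => ?_
    rw [Fintype.sum_prod_type]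
  rw [h1, h3]
  refine Finset.sum_congr rfl fun l _ => ?_
  refine Fintype.sum_equiv (exch l) _ _ fun p => ?_
  rw [exch_apply]
  simp

/-- the matrix is determined by the derivatives, by a formula with constant coefficients -/
theorem lie_inv (hLIE : S_LIE) (hm : 1 ≤ m) (b : Fin n → (Fin m → Fin n) → ℂ)
    (hb : ¬ HasZero b) : ∃ lam : Fin n → Fin n → Fin n → (Fin m → Fin n) → ℂ,
      ∀ (B : Matrix (Fin n) (Fin n) L) p q,
        B p q = ∑ i, ∑ j, algebraMap ℂ L (lam p q i j) * lie (b i) B j := by
  classical
  obtain ⟨cc, hcc⟩ : ∃ cc : Fin n → (Fin m → Fin n) → Fin n → Fin n → ℂ, ∀ i j r s, cc i j r s =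
    ∑ l, if j l = s then b i (Function.update j l r) else 0 := ⟨_, fun _ _ _ _ => rfl⟩
  have hexp : ∀ (F : Type) [Field F] [Algebra ℂ F] (B : Matrix (Fin n) (Fin n) F) i
      (j : Fin m → Fin n), lie (b i) B j = ∑ r, ∑ s, algebraMap ℂ F (cc i j r s) * B r s := by
    intro F _ _ B i j
    unfold lie
    rw [Finset.sum_comm]
    refine Finset.sum_congr rfl fun r _ => ?_
    have h1 : ∀ s, algebraMap ℂ F (cc i j r s) * B r s =
        ∑ l, if j l = s then algebraMap ℂ F (b i (Function.update j l r)) * B r s else 0 := by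
      intro s
      rw [hcc, map_sum, Finset.sum_mul]
      refine Finset.sum_congr rfl fun l _ => ?_
      split_ifs
      · rfl
      · rw [map_zero, zero_mul]
    rw [Finset.sum_congr rfl fun s _ => h1 s, Finset.sum_comm]
    refine Finset.sum_congr rfl fun l _ => ?_
    rw [Finset.sum_ite_eq Finset.univ (j l), if_pos (Finset.mem_univ _)]
  let Λ : Matrix (Fin n) (Fin n) ℂ →ₗ[ℂ] (Fin n → (Fin m → Fin n) → ℂ) :=
    { toFun := fun B i j => ∑ r, ∑ s, cc i j r s * B r s
      map_add' := by
        intro B B'
        funext i j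
        simp only [Matrix.add_apply, mul_add, Finset.sum_add_distrib, Pi.add_apply]
      map_smul' := by
        intro c B
        funext i j
        simp only [Matrix.smul_apply, smul_eq_mul, RingHom.id_apply, Pi.smul_apply,
          Finset.mul_sum]
        refine Finset.sum_congr rfl fun r _ => Finset.sum_congr rfl fun s _ => ?_
        ring }
  have hΛ : ∀ B i j, Λ B i j = ∑ r, ∑ s, cc i j r s * B r s := fun _ _ _ => rfl
  have hker : LinearMap.ker Λ = ⊥ := by
    rw [LinearMap.ker_eq_bot']
    intro B hB
    refine hLIE n m hm b hb B fun i j => ?_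
    have h1 := hexp ℂ B i j
    have h2 := congrFun (congrFun hB i) j
    rw [hΛ] at h2
    exact h1.trans h2
  obtain ⟨Λ', hΛ'⟩ := Λ.exists_leftInverse_of_injective hker
  have hinv : ∀ B, Λ' (Λ B) = B := fun B => LinearMap.congr_fun hΛ' B
  obtain ⟨lam, hlam⟩ : ∃ lam : Fin n → Fin n → Fin n → (Fin m → Fin n) → ℂ,
    ∀ p q i j, lam p q i j = Λ' (Pi.single i (Pi.single j 1)) p q := ⟨_, fun _ _ _ _ => rfl⟩
  have hΛ'e : ∀ (v : Fin n → (Fin m → Fin n) → ℂ) p q,
      Λ' v p q = ∑ i, ∑ j, v i j * lam p q i j := by
    intro v p q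
    have h1 : v = ∑ i, ∑ j, v i j • (Pi.single i (Pi.single j 1) :
        Fin n → (Fin m → Fin n) → ℂ) := by
      funext i0 j0
      simp only [Finset.sum_apply, Pi.smul_apply, smul_eq_mul]
      rw [Finset.sum_eq_single i0]
      · rw [Finset.sum_eq_single j0]
        · rw [Pi.single_eq_same, Pi.single_eq_same, mul_one]
        · intro j _ hj
          rw [Pi.single_eq_same, Pi.single_eq_of_ne (Ne.symm hj), mul_zero]
        · intro h
          exact absurd (Finset.mem_univ _) h
      · intro i _ hi
        refine Finset.sum_eq_zero fun j _ => ?_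
        rw [Pi.single_eq_of_ne (Ne.symm hi)]
        exact mul_zero _
      · intro h
        exact absurd (Finset.mem_univ _) h
    conv_lhs => rw [h1]
    rw [map_sum]
    simp only [map_sum, map_smul]
    rw [Matrix.sum_apply]
    refine Finset.sum_congr rfl fun i _ => ?_
    rw [Matrix.sum_apply]
    refine Finset.sum_congr rfl fun j _ => ?_
    rw [Matrix.smul_apply, smul_eq_mul, hlam]
  refine ⟨lam, fun B p q => ?_⟩
  have h1 : ∀ r s, ∑ i, ∑ j, lam p q i j * cc i j r s = if p = r ∧ q = s then 1 else 0 := by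
    intro r s
    have h2 := hΛ'e (Λ (Matrix.of fun a b => if a = r ∧ b = s then 1 else 0)) p q
    rw [hinv] at h2
    rw [Matrix.of_apply] at h2
    rw [h2]
    refine Finset.sum_congr rfl fun i _ => Finset.sum_congr rfl fun j _ => ?_
    rw [mul_comm, hΛ]
    congr 1
    rw [Finset.sum_eq_single r]
    · rw [Finset.sum_eq_single s]
      · rw [Matrix.of_apply, if_pos ⟨rfl, rfl⟩, mul_one]
      · intro b _ hb
        rw [Matrix.of_apply, if_neg (fun h => hb h.2), mul_zero]
      · intro h
        exact absurd (Finset.mem_univ _) h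
    · intro a _ ha
      refine Finset.sum_eq_zero fun b _ => ?_
      rw [Matrix.of_apply, if_neg (fun h => ha h.1), mul_zero]
    · intro h
      exact absurd (Finset.mem_univ _) h
  have h2 : ∀ i j, algebraMap ℂ L (lam p q i j) * lie (b i) B j =
      ∑ r, ∑ s, algebraMap ℂ L (lam p q i j * cc i j r s) * B r s := by
    intro i j
    rw [hexp, Finset.mul_sum]
    refine Finset.sum_congr rfl fun r _ => ?_
    rw [Finset.mul_sum]
    refine Finset.sum_congr rfl fun s _ => ?_
    rw [map_mul, mul_assoc]
  have h3 : ∑ i, ∑ j, algebraMap ℂ L (lam p q i j) * lie (b i) B j =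
      ∑ r, ∑ s, algebraMap ℂ L (∑ i, ∑ j, lam p q i j * cc i j r s) * B r s := by
    simp only [h2, map_sum, Finset.sum_mul]
    rw [Finset.sum_congr rfl fun i _ => Finset.sum_comm, Finset.sum_comm]
    refine Finset.sum_congr rfl fun r _ => ?_
    rw [Finset.sum_congr rfl fun i _ => Finset.sum_comm, Finset.sum_comm]
  rw [h3]
  simp only [h1]
  rw [Finset.sum_eq_single p]
  · rw [Finset.sum_eq_single q]
    · rw [if_pos ⟨rfl, rfl⟩, map_one, one_mul]
    · intro s _ hs
      rw [if_neg (fun h => hs h.2.symm), map_zero, zero_mul]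
    · intro h
      exact absurd (Finset.mem_univ _) h
  · intro r _ hr
    refine Finset.sum_eq_zero fun s _ => ?_
    rw [if_neg (fun h => hr h.1.symm), map_zero, zero_mul]
  · intro h
    exact absurd (Finset.mem_univ _) h

end

end Pool.Agent.L7h62.SD
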