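import Pool.Agent.L7h62.SD.Vf
import Pool.Agent.L7h62.SD.Lgs
import Pool.Agent.L7h62.SD.Lie

/-!
# Project SD: the covering is unramified where the resultant does not vanish
-/

set_option autoImplicit false
set_option linter.all false

open FF Module Pool.Agent.W602.GT Pool.Agent.W603.LV Pool.Agent.W619.PQ Pool.Agent.Y172
open Pool.Agent.L7h62.MM

namespace Pool.Agent.L7h62.SD

section

variable {K : Type} [Field K] [Algebra ℂ K] {n m : ℕ}
  {L : Type} [Field L] [Algebra ℂ L] [Algebra K L] [IsScalarTower ℂ K L]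
  {T : Fin n → Ten K m} {C : Crd ℂ K (Fin n)} [Algebra.EssFiniteType ℂ K]
  [FiniteDimensional K L]

/-- the entries of the matrix are regular -/
theorem wm_reg (ρ : ResData n m) (hINT : S_INT) (hm : 1 ≤ m)
    (hreg : ∀ i, RegT (n := n) (T i)) (φ : Fr L T C) {P : Place ℂ K} {Q : Place ℂ L} {e : ℕ}
    (h : Over Q P e) (hP : Divisorial n P) {y : Fin n → K} {E : Fin n → Derivation ℂ K K}
    {i0 : Fin n} (hl : Loc P y E i0) {E' : Fin n → Derivation ℂ L L}
    (hE' : ∀ i f, E' i (algebraMap K L f) = algebraMap K L (E i f)) (s t : Fin n) :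
    Q.Reg (wm φ E' s t) := by
  refine vals_reg ρ hINT hm φ (x := vf φ (E' t)) (fun i => ?_) s
  rw [vf_loc φ hl.bas hl.dual]
  refine ev_reg (fun j => h.reg.2 (co_reg hreg hP hl.pres i j)) fun j => ?_
  rw [hE']
  exact h.reg.2 (hl.pres _ _ (hl.reg j))

theorem wm_det (ρ : ResData n m) (hINT : S_INT) (hm : 1 ≤ m)
    (hreg : ∀ i, RegT (n := n) (T i)) (φ : Fr L T C) {P : Place ℂ K} {Q : Place ℂ L} {e : ℕ}
    (h : Over Q P e) (hP : Divisorial n P) {y : Fin n → K} {E : Fin n → Derivation ℂ K K}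
    {i0 : Fin n} (hl : Loc P y E i0) (hne : Th ρ T E ≠ 0) {E' : Fin n → Derivation ℂ L L}
    (hE' : ∀ i f, E' i (algebraMap K L f) = algebraMap K L (E i f)) :
    (wm φ E').det ≠ 0 ∧ ρ.k * Q.ord (wm φ E').det = e * P.ord (Th ρ T E) := by
  have h1 := det_wm ρ φ hE'
  have h4 := ρ.ne ℂ φ.b φ.hb
  have h5 : algebraMap K L (Th ρ T E) ≠ 0 := by
    rwa [Ne, map_eq_zero]
  have h6 : algebraMap ℂ L (at_ φ.b ρ.p) ≠ 0 := by
    rwa [Ne, map_eq_zero]
  have h7 : (wm φ E').det ^ ρ.k ≠ 0 := fun h8 => h5 (by rw [h1, h8, zero_mul])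
  have h8 : (wm φ E').det ≠ 0 := fun h9 => h7 (by
    rw [h9, zero_pow]
    have := ρ.hk
    omega)
  refine ⟨h8, ?_⟩
  have h9 := congrArg Q.ord h1
  rw [Q.ord_mul h7 h6, Q.ord_pow, Q.ord_const h4, add_zero, h.2] at h9
  exact h9.symm

/-- **Unramified.** -/
theorem unram (ρ : ResData n m) (hINT : S_INT) (hLIE : S_LIE) (hm : 1 ≤ m)
    (hreg : ∀ i, RegT (n := n) (T i)) (φ : Fr L T C)
    (htop : IntermediateField.adjoin K (Set.range fun p : Fin n × Fin n => φ.g p.1 p.2) = ⊤)
    {P : Place ℂ K} {Q : Place ℂ L} {e : ℕ}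
    (h : Over Q P e) (hP : Divisorial n P) {y : Fin n → K} {E : Fin n → Derivation ℂ K K}
    {i0 : Fin n} (hl : Loc P y E i0) (hne : Th ρ T E ≠ 0) (hord : P.ord (Th ρ T E) = 0)
    {E' : Fin n → Derivation ℂ L L}
    (hE' : ∀ i f, E' i (algebraMap K L f) = algebraMap K L (E i f)) : e = 1 := by
  classical
  obtain ⟨w, hw⟩ : ∃ w, w = wm φ E' := ⟨_, rfl⟩
  obtain ⟨hd0, hd1⟩ := wm_det ρ hINT hm hreg φ h hP hl hne hE'
  rw [hord, mul_zero] at hd1
  have hd2 : Q.ord w.det = 0 := by
    rw [← hw] at hd1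
    rcases mul_eq_zero.1 hd1 with h1 | h1
    · have := ρ.hk
      omega
    · exact h1
  rw [← hw] at hd0
  have hwu : IsUnit w.det := Ne.isUnit hd0
  have hwreg : ∀ s t, Q.Reg (w s t) := fun s t => by
    rw [hw]
    exact wm_reg ρ hINT hm hreg φ h hP hl hE' s t
  obtain ⟨v, hv⟩ : ∃ v, v = w⁻¹ := ⟨_, rfl⟩
  have hwv : w * v = 1 := by rw [hv, Matrix.mul_nonsing_inv _ hwu]
  have hvw : v * w = 1 := by rw [hv, Matrix.nonsing_inv_mul _ hwu]
  have hvreg : ∀ s t, Q.Reg (v s t) := by
    intro s t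
    rw [hv, Matrix.inv_def, Matrix.smul_apply, Ring.inverse_eq_inv', smul_eq_mul]
    refine Q.reg_mul (Or.inr (by rw [Q.ord_inv, hd2]; simp)) ?_
    rw [Matrix.adjugate_apply]
    refine Pool.Agent.W619.PQ.ge_det Q _ fun a b => ?_
    rw [Matrix.updateRow_apply]
    split_ifs
    · rw [Pi.single_apply]
      split_ifs
      · exact Ge.one
      · exact Ge.zero
    · exact hwreg a b
  -- the derivation
  obtain ⟨δ, hδ⟩ : ∃ δ, δ = E' i0 := ⟨_, rfl⟩
  obtain ⟨B, hB⟩ : ∃ B : Matrix (Fin n) (Fin n) L, B = (Matrix.of fun s t => δ (w s t)) * v :=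
    ⟨_, rfl⟩
  have hBw : ∀ s t, δ (w s t) = ∑ r, B s r * w r t := by
    intro s t
    have h1 : B * w = Matrix.of fun s t => δ (w s t) := by
      rw [hB, Matrix.mul_assoc, hvw, Matrix.mul_one]
    have h2 := congrFun (congrFun h1 s) t
    rw [Matrix.mul_apply, Matrix.of_apply] at h2
    exact h2.symm
  have hδv : (Matrix.of fun s t => δ (v s t)) = -(v * B) := by
    have h1 : w * (Matrix.of fun s t => δ (v s t)) = -B := by
      ext s t
      have h2 := congrFun (congrFun hwv s) t
      rw [Matrix.mul_apply] at h2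
      have h3 : δ ((1 : Matrix (Fin n) (Fin n) L) s t) = 0 := by
        rw [Matrix.one_apply]
        split_ifs
        · exact δ.map_one_eq_zero
        · exact map_zero _
      rw [← h2, map_sum] at h3
      simp only [Derivation.leibniz, smul_eq_mul, Finset.sum_add_distrib] at h3
      rw [Matrix.mul_apply, Matrix.neg_apply, hB, Matrix.mul_apply]
      simp only [Matrix.of_apply]
      rw [eq_neg_iff_add_eq_zero, ← h3]
      congr 1
      refine Finset.sum_congr rfl fun r _ => mul_comm _ _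
    calc (Matrix.of fun s t => δ (v s t)) = (v * w) * Matrix.of fun s t => δ (v s t) := by
          rw [hvw, Matrix.one_mul]
      _ = v * (w * Matrix.of fun s t => δ (v s t)) := by rw [Matrix.mul_assoc]
      _ = -(v * B) := by rw [h1, Matrix.mul_neg]
  -- the ring
  obtain ⟨S, hS⟩ : ∃ S : Set L, S = {x | ∃ f : K, P.Reg f ∧ x = algebraMap K L f} ∪
    (Set.range fun p : Fin n × Fin n => w p.1 p.2) ∪
    (Set.range fun p : Fin n × Fin n => v p.1 p.2) := ⟨_, rfl⟩
  obtain ⟨R, hR⟩ : ∃ R : Subring L, R = Subring.closure S := ⟨_, rfl⟩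
  have hSR : ∀ x ∈ S, x ∈ R := fun x hx => hR ▸ Subring.subset_closure hx
  have hfR : ∀ f : K, P.Reg f → algebraMap K L f ∈ R := fun f hf =>
    hSR _ (by rw [hS]; exact Or.inl (Or.inl ⟨f, hf, rfl⟩))
  have hwR : ∀ s t, w s t ∈ R := fun s t =>
    hSR _ (by rw [hS]; exact Or.inl (Or.inr ⟨(s, t), rfl⟩))
  have hvR : ∀ s t, v s t ∈ R := fun s t =>
    hSR _ (by rw [hS]; exact Or.inr ⟨(s, t), rfl⟩)
  have hcR : ∀ c : ℂ, algebraMap ℂ L c ∈ R := fun c => by
    rw [IsScalarTower.algebraMap_apply ℂ K L]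
    exact hfR _ (P.reg_const c)
  -- the coefficients of `B`
  have hBR : ∀ s t, B s t ∈ R := by
    obtain ⟨lam, hlam⟩ := lie_inv (L := L) hLIE hm φ.b φ.hb
    intro s t
    rw [hlam B s t]
    refine sum_mem fun i _ => sum_mem fun j _ => mul_mem (hcR _) ?_
    obtain ⟨d, hd⟩ : ∃ d : (Fin m → Fin n) → L, d = fun k =>
      algebraMap K L (E i0 (co T E i k)) := ⟨_, rfl⟩
    have h1 : act w (lie (φ.b i) B) = d := by
      funext k
      rw [← der_act δ w B hBw (φ.b i) k, hw, act_wm φ hE' i, hd, hδ]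
      exact hE' i0 _
    have h2 : lie (φ.b i) B = act v d := by
      rw [← h1, ← act_mul, hwv, act_one]
    rw [h2, hd]
    unfold act
    refine sum_mem fun k _ => mul_mem (hfR _ ?_) (prod_mem fun l _ => hvR _ _)
    exact hl.pres i0 _ (co_reg hreg hP hl.pres i k)
  refine ram_one h hl (E' := δ) (fun f => by rw [hδ]; exact hE' i0 f) (R : Set L) (fun x hx => ?_)
    (fun x hx => ?_) (fun z hz => ?_)
  · -- regular
    have h1 : R ≤ Q.O.toSubring := by
      rw [hR, Subring.closure_le, hS]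
      rintro x ((⟨f, hf, rfl⟩ | ⟨p, rfl⟩) | ⟨p, rfl⟩)
      · exact h.reg.2 hf
      · exact hwreg _ _
      · exact hvreg _ _
    exact h1 hx
  · -- stable
    change x ∈ R at hx
    change δ x ∈ R
    have hx' := hx
    rw [hR] at hx'
    clear hx
    induction hx' using Subring.closure_induction with
    | mem x hx =>
      rw [hS] at hx
      rcases hx with (⟨f, hf, rfl⟩ | ⟨p, rfl⟩) | ⟨p, rfl⟩
      · rw [hδ, hE']
        exact hfR _ (hl.pres i0 f hf)
      · change δ (w p.1 p.2) ∈ R
        rw [hBw]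
        exact sum_mem fun r _ => mul_mem (hBR _ _) (hwR _ _)
      · change δ (v p.1 p.2) ∈ R
        have h1 := congrFun (congrFun hδv p.1) p.2
        rw [Matrix.of_apply, Matrix.neg_apply, Matrix.mul_apply] at h1
        rw [h1]
        exact neg_mem (sum_mem fun r _ => mul_mem (hvR _ _) (hBR _ _))
    | zero =>
      rw [map_zero]
      exact zero_mem _
    | one =>
      rw [δ.map_one_eq_zero]
      exact zero_mem _
    | add x y hx hy h1 h2 =>
      rw [map_add]
      exact add_mem h1 h2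
    | neg x hx h1 =>
      rw [map_neg]
      exact neg_mem h1
    | mul x y hx hy h1 h2 =>
      rw [δ.leibniz]
      rw [← hR] at hx hy
      exact add_mem (mul_mem hx h2) (mul_mem hy h1)
  · -- fractions
    obtain ⟨A, hA⟩ : ∃ A : Subalgebra K L, ∀ z, z ∈ A ↔ ∃ f : K, f ≠ 0 ∧
        algebraMap K L f * z ∈ R := by
      refine ⟨{ carrier := {z | ∃ f : K, f ≠ 0 ∧ algebraMap K L f * z ∈ R}
                mul_mem' := ?_
                add_mem' := ?_
                algebraMap_mem' := ?_ }, fun z => Iff.rfl⟩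
      · rintro a b ⟨f, hf, hfa⟩ ⟨g, hg, hgb⟩
        refine ⟨f * g, mul_ne_zero hf hg, ?_⟩
        have h1 := mul_mem hfa hgb
        have h2 : algebraMap K L (f * g) * (a * b) =
            algebraMap K L f * a * (algebraMap K L g * b) := by
          rw [map_mul]
          ring
        rw [h2]
        exact h1
      · rintro a b ⟨f, hf, hfa⟩ ⟨g, hg, hgb⟩
        -- make the denominators regular
        have hden : ∀ (f : K) (a : L), f ≠ 0 → algebraMap K L f * a ∈ R →
            ∃ f' : K, f' ≠ 0 ∧ P.Reg f' ∧ algebraMap K L f' * a ∈ R := by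
          intro f a hf hfa
          by_cases hr : P.Reg f
          · exact ⟨f, hf, hr, hfa⟩
          · have h1 : P.Reg f⁻¹ := by
              right
              rw [P.ord_inv]
              rw [P.reg_iff hf] at hr
              omega
            refine ⟨1, one_ne_zero, P.reg_one, ?_⟩
            have h2 := mul_mem (hfR _ h1) hfa
            rwa [← mul_assoc, ← map_mul, inv_mul_cancel₀ hf] at h2
        obtain ⟨f', hf', hfr, hfa'⟩ := hden f a hf hfa
        obtain ⟨g', hg', hgr, hgb'⟩ := hden g b hg hgb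
        refine ⟨f' * g', mul_ne_zero hf' hg', ?_⟩
        have h1 := add_mem (mul_mem (hfR _ hgr) hfa') (mul_mem (hfR _ hfr) hgb')
        have h2 : algebraMap K L (f' * g') * (a + b) =
            algebraMap K L g' * (algebraMap K L f' * a) +
              algebraMap K L f' * (algebraMap K L g' * b) := by
          rw [map_mul]
          ring
        rw [h2]
        exact h1
      · intro r
        by_cases hr0 : r = 0
        · refine ⟨1, one_ne_zero, ?_⟩
          rw [hr0, map_zero, mul_zero]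
          exact zero_mem _
        · refine ⟨r⁻¹, inv_ne_zero hr0, ?_⟩
          rw [← map_mul, inv_mul_cancel₀ hr0, map_one]
          exact one_mem _
    have hRA : ∀ x ∈ R, x ∈ A := fun x hx => (hA x).2 ⟨1, one_ne_zero, by
      rw [map_one, one_mul]
      exact hx⟩
    have hgA : ∀ s t, φ.g s t ∈ A := by
      intro s t
      have h1 : φ.g = (Matrix.of fun s l => algebraMap K L (E l (C.z s))) * v := by
        have h2 : φ.g * w = Matrix.of fun s l => algebraMap K L (E l (C.z s)) := by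
          ext s l
          rw [Matrix.mul_apply, hw]
          change φ.g.mulVec (vf φ (E' l)) s = algebraMap K L (E l (C.z s))
          unfold vf
          rw [Matrix.mulVec_mulVec, Matrix.mul_nonsing_inv _ φ.hg, Matrix.one_mulVec, hE']
        rw [← h2, Matrix.mul_assoc, hwv, Matrix.mul_one]
      rw [h1, Matrix.mul_apply]
      refine sum_mem fun r _ => mul_mem ?_ (hRA _ (hvR _ _))
      rw [Matrix.of_apply]
      exact A.algebraMap_mem _
    have hAtop : ∀ z : L, z ∈ A := by
      intro z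
      have h1 : z ∈ (IntermediateField.adjoin K
          (Set.range fun p : Fin n × Fin n => φ.g p.1 p.2)) := by
        rw [htop]
        trivial
      rw [← IntermediateField.mem_toSubalgebra,
        IntermediateField.adjoin_toSubalgebra_of_isAlgebraic (fun x _ =>
          Algebra.IsAlgebraic.isAlgebraic x)] at h1
      refine (Algebra.adjoin_le ?_ : Algebra.adjoin K _ ≤ A) h1
      rintro _ ⟨p, rfl⟩
      exact hgA _ _
    obtain ⟨f, hf, hfz⟩ := (hA z).1 (hAtop z)
    exact ⟨_, hfz, f, hf, rfl⟩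

end

end Pool.Agent.L7h62.SD
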