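import Pool.Agent.L7h62.SD.Inv

/-!
# Project SD: the Kodaira dimension of the covering is zero
-/

set_option autoImplicit false
set_option linter.all false

open FF Module Pool.Agent.W602.GT Pool.Agent.W603.LV Pool.Agent.W619.PQ Pool.Agent.Y172
open Pool.Agent.L7h62.MM

namespace Pool.Agent.L7h62.SD

section

open Polynomial

variable {k K L : Type} [Field k] [CharZero k] [Field K] [Field L] [Algebra k K] [Algebra k L]
  [Algebra K L] [IsScalarTower k K L] [FiniteDimensional K L] [Normal K L]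

/-- a function which is regular at all places over `P` is integral at `P` -/
theorem int_of_reg {P : Place k K} {x : L}
    (h : ∀ (Q : Place k L) (e : ℕ), Over Q P e → Q.Reg x) : IntAt P x := by
  obtain ⟨Q, e, hQ⟩ := exists_above (k := k) (L := L) P
  have hx : IsIntegral K x := Algebra.IsIntegral.isIntegral x
  have hroot : ∀ a ∈ ((minpoly K x).map (algebraMap K L)).roots, Q.Reg a := by
    intro a ha
    have h1 := (mem_roots'.1 ha).2
    have h2 : aeval a (minpoly K x) = 0 := by
      rw [aeval_def, ← eval_map]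
      exact h1
    obtain ⟨σ, hσ⟩ := minpoly.exists_algEquiv_of_root' (L := L) (x := a) (y := x)
      hx.isAlgebraic h2
    obtain ⟨Q1, e0, e1, hQ1, he1, -, hord⟩ := below_emb (σ : L →ₐ[K] L) hQ
    rcases h Q1 e0 hQ1 with h3 | h3
    · left
      rw [← hσ, h3, map_zero]
    · right
      rw [← hσ]
      have h4 := hord x
      change Q.ord (σ x) = _ at h4
      rw [h4]
      positivity
  have h1 : (minpoly K x).map (algebraMap K L) ∈ Polynomial.lifts Q.O.subtype :=
    (Normal.splits (inferInstance : Normal K L) x).mem_lift_of_roots_mem_range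
      ((minpoly.monic hx).map _) Q.O.subtype fun a ha => ⟨⟨a, hroot a ha⟩, rfl⟩
  have h2 : ∀ l, P.Reg ((minpoly K x).coeff l) := by
    intro l
    rw [Polynomial.lifts_iff_coeff_lifts] at h1
    obtain ⟨z, hz⟩ := h1 l
    rw [coeff_map] at hz
    rw [← hQ.reg, ← hz]
    exact z.2
  have h3 : minpoly K x ∈ Polynomial.lifts P.O.subtype := by
    rw [Polynomial.lifts_iff_coeff_lifts]
    intro l
    exact ⟨⟨_, h2 l⟩, rfl⟩
  obtain ⟨μ, hμ, -, hμm⟩ := Polynomial.lifts_and_natDegree_eq_and_monic h3 (minpoly.monic hx)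
  refine ⟨μ, hμm, ?_⟩
  rw [← eval₂_map, hμ]
  exact minpoly.aeval K x

end

section

variable {K : Type} [Field K] [Algebra ℂ K] {n m : ℕ}
  {L : Type} [Field L] [Algebra ℂ L] [Algebra K L] [IsScalarTower ℂ K L]
  {T : Fin n → Ten K m} {C : Crd ℂ K (Fin n)}

/-- the exterior product of the one-forms -/
noncomputable def wv (φ : Fr L T C) (D : Fin n → Derivation ℂ L L) : L := (wm φ D).det

theorem wv_pluri (φ : Fr L T C) : IsPluri 1 (wv φ) := by
  intro A D
  unfold wv
  have h1 : wm φ (fun i => ∑ j, A i j • D j) = wm φ D * A.transpose := by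
    ext s t
    unfold wm
    rw [Matrix.of_apply, Matrix.mul_apply, vf_sum]
    rw [Finset.sum_apply]
    refine Finset.sum_congr rfl fun j _ => ?_
    rw [Pi.smul_apply, smul_eq_mul, mul_comm]
    rfl
  rw [h1, Matrix.det_mul, Matrix.det_transpose, pow_one, mul_comm]

variable [Algebra.EssFiniteType ℂ K] [FiniteDimensional K L]

/-- **The pluricanonical forms of the covering.** -/
theorem kod_up [IsGalois K L] (hn : Algebra.trdeg ℂ K = n) (hκ : KodLeZero K n)
    (ρ : ResData n m) (hINT : S_INT) (hLIE : S_LIE) (hm : 1 ≤ m)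
    (hreg : ∀ i, RegT (n := n) (T i)) (φ : Fr L T C) (hne : Th ρ T C.E ≠ 0)
    (htop : IntermediateField.adjoin K (Set.range fun p : Fin n × Fin n => φ.g p.1 p.2) = ⊤)
    (r : ℕ) (hr : 1 ≤ r) {η : (Fin n → Derivation ℂ L L) → L} (hη : IsPluri r η)
    (hηr : ∀ Q : Place ℂ L, Divisorial n Q → RegAt Q η) :
    ∃ c : ℂ, ∀ D, η D = algebraMap ℂ L c * wv φ D ^ r := by
  classical
  have hessL : Algebra.EssFiniteType ℂ L := Algebra.EssFiniteType.comp ℂ K L
  have hnL : Algebra.trdeg ℂ L = n := trdeg_up (K := K) hn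
  have hchK : CharZero K := charZero_of_injective_algebraMap (algebraMap ℂ K).injective
  -- values in the frame of the lifts
  have hW0 : wv φ (C.up L).E ≠ 0 := by
    intro h0
    have h1 := det_wm ρ φ (E := C.E) (E' := (C.up L).E) fun i f => C.up_E _ _
    unfold wv at h0
    rw [h0, zero_pow (by have := ρ.hk; omega), zero_mul] at h1
    exact hne ((map_eq_zero _).1 h1)
  obtain ⟨γ, hγ⟩ : ∃ γ, γ = η (C.up L).E / wv φ (C.up L).E ^ r := ⟨_, rfl⟩
  have hval : ∀ D, η D = γ * wv φ D ^ r := by
    intro D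
    rw [pluri_coord (C.up L).bas (C.up L).dual hη D,
      pluri_coord (C.up L).bas (C.up L).dual (wv_pluri φ) D, hγ, pow_one, mul_pow]
    field_simp
  obtain ⟨c, hc⟩ : ∃ c : ℂ, γ = algebraMap ℂ L c := by
    refine const_of_bdd hn hκ ρ hreg C hne (Algebra.IsIntegral.isIntegral _) (2 * r) (by omega)
      fun P hP y E i0 hl => ?_
    obtain ⟨θ, hθ⟩ : ∃ θ, θ = Th ρ T E := ⟨_, rfl⟩
    have hθ0 : θ ≠ 0 := by
      intro h0
      apply hne
      rw [pluri_coord hl.bas hl.dual (th_pluri ρ T) C.E, ← hθ, h0, mul_zero]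
    have hθr : 0 ≤ P.ord θ := (P.reg_iff hθ0).1 (by rw [hθ]; exact th_reg ρ hreg hP E hl.pres)
    rw [← hθ]
    refine int_of_reg fun Q e h => ?_
    by_cases hγ0 : γ = 0
    · left
      rw [hγ0, mul_zero]
    obtain ⟨Cl, hCl⟩ : ∃ Cl : Crd ℂ K (Fin n), Cl = ⟨y, E, hl.bas, hl.dual⟩ := ⟨_, rfl⟩
    obtain ⟨E', hE'⟩ : ∃ E' : Fin n → Derivation ℂ L L,
        ∀ i f, E' i (algebraMap K L f) = algebraMap K L (E i f) :=
      ⟨(Cl.up L).E, fun i f => by
        have := Cl.up_E (K := L) i f
        rw [hCl] at this ⊢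
        exact this⟩
    have hQ : Divisorial n Q := divisorial_up h hP
    obtain ⟨hd0, hd1⟩ := wm_det ρ hINT hm hreg φ h hP hl (by rw [← hθ]; exact hθ0) hE'
    rw [← hθ] at hd1
    have hdr : 0 ≤ Q.ord (wm φ E').det := by
      refine (Q.reg_iff hd0).1 (Pool.Agent.W619.PQ.ge_det Q _ fun s t => ?_)
      exact wm_reg ρ hINT hm hreg φ h hP hl hE' s t
    have hηE : η E' = γ * (wm φ E').det ^ r := hval E'
    have hη0 : η E' ≠ 0 := by
      rw [hηE]
      exact mul_ne_zero hγ0 (pow_ne_zero _ hd0)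
    have hord : Q.ord (η E') = Q.ord γ + r * Q.ord (wm φ E').det := by
      rw [hηE, Q.ord_mul hγ0 (pow_ne_zero _ hd0), Q.ord_pow]
    have hθL : algebraMap K L (θ ^ (2 * r)) ≠ 0 := by
      rw [Ne, map_eq_zero]
      exact pow_ne_zero _ hθ0
    right
    rw [Q.ord_mul hθL hγ0, h.2, P.ord_pow]
    have he1 : (1 : ℤ) ≤ e := by exact_mod_cast h.1
    have hk1 : (1 : ℤ) ≤ ρ.k := by exact_mod_cast ρ.hk
    have hr1 : (1 : ℤ) ≤ r := by exact_mod_cast hr
    rcases hθr.eq_or_lt with h0 | h0
    · -- the resultant is a unit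
      have he : e = 1 := unram ρ hINT hLIE hm hreg φ htop h hP hl (by rw [← hθ]; exact hθ0)
        (by rw [← hθ]; exact h0.symm) hE'
      have hE'r : ∀ i, DerReg Q (E' i) := by
        intro i
        obtain ⟨c, G, h1, h2, h3⟩ := lift_mild (K' := L) hn h hP hl hE' i
        rw [h1]
        intro f hf
        change Q.Reg (c * G f)
        refine Q.reg_mul ?_ (h2 f hf)
        refine h3.mono ?_
        rw [he]
        split_ifs <;> simp
      have h1 := (Q.reg_iff hη0).1 (hηr Q hQ E' hE'r)
      rw [hord] at h1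
      rw [← h0, mul_zero] at hd1
      have h2 : Q.ord (wm φ E').det = 0 := by
        rcases mul_eq_zero.1 hd1 with h3 | h3
        · omega
        · exact h3
      rw [h2, mul_zero, add_zero] at h1
      rw [← h0, mul_zero, mul_zero, zero_add]
      exact h1
    · -- the resultant vanishes
      have h1 := down_ge hnL h hQ hl hE' hη (c := 0) (fun G hG => by
        rcases hηr Q hQ G hG with h2 | h2
        · left; exact h2
        · right; exact_mod_cast h2)
      have h2 := h1.resolve_left hη0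
      have h3 : (r : ℤ) - e * r ≤ Q.ord (η E') := by
        have : (((r : ℤ) - e * r : ℤ) : ℝ) ≤ ((Q.ord (η E') : ℤ) : ℝ) := by
          push_cast
          linarith
        exact_mod_cast this
      rw [hord] at h3
      -- the order of the determinant
      have h4 : Q.ord (wm φ E').det ≤ e * P.ord θ := by
        rw [← hd1]
        nlinarith
      have h5 : (1 : ℤ) ≤ P.ord θ := h0
      have h6 : (r : ℤ) * Q.ord (wm φ E').det ≤ r * (e * P.ord θ) :=
        mul_le_mul_of_nonneg_left h4 (by omega)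
      have h7 : (e : ℤ) * r * 1 ≤ e * r * P.ord θ :=
        mul_le_mul_of_nonneg_left h5 (by positivity)
      push_cast
      nlinarith
  exact ⟨c, fun D => by rw [hval D, hc]⟩

end

end Pool.Agent.L7h62.SD
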