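import Pool.Agent.L7h62.SD.Kod
import Pool.Agent.L7h62.SD.Defs3

/-!
# Project SD: the main theorem
-/

set_option autoImplicit false
set_option linter.all false

open FF Module Pool.Agent.W602.GT Pool.Agent.W603.LV Pool.Agent.W619.PQ Pool.Agent.Y172
open Pool.Agent.L7h62.MM

namespace Pool.Agent.L7h62.SD

/-- there are `n` independent holomorphic one-forms, and all the pluricanonical forms are constant
multiples of the powers of their exterior product -/
def AbelianLike (L : Type) [Field L] [Algebra ℂ L] (n : ℕ) : Prop :=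
  ∃ v : Fin n → (Derivation ℂ L L →ₗ[L] L), LinearIndependent L v ∧
    (∀ Q : Place ℂ L, Divisorial n Q → ∀ k D, DerReg Q D → Q.Reg (v k D)) ∧
    ∀ r : ℕ, 1 ≤ r → ∀ η : (Fin n → Derivation ℂ L L) → L, IsPluri r η →
      (∀ Q : Place ℂ L, Divisorial n Q → RegAt Q η) →
      ∃ c : ℂ, ∀ D, η D = algebraMap ℂ L c * (Matrix.of fun k l => v k (D l)).det ^ r

section

variable {K : Type} [Field K] [Algebra ℂ K] {n m : ℕ}
  {L : Type} [Field L] [Algebra ℂ L] [Algebra K L] [IsScalarTower ℂ K L]
  {T : Fin n → Ten K m} {C : Crd ℂ K (Fin n)}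

/-- the one-forms as linear maps -/
noncomputable def vL (φ : Fr L T C) (k : Fin n) : Derivation ℂ L L →ₗ[L] L where
  toFun := fun D => vf φ D k
  map_add' := fun D D' => by rw [vf_add]; rfl
  map_smul' := fun f D => by rw [vf_smul]; rfl

theorem vL_indep (φ : Fr L T C) {D : Fin n → Derivation ℂ L L} (h : wv φ D ≠ 0) :
    LinearIndependent L (vL φ) := by
  rw [Fintype.linearIndependent_iff]
  intro a ha
  have h1 : (wm φ D).transpose.mulVec a = 0 := by
    funext l
    have h2 := LinearMap.congr_fun ha (D l)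
    rw [LinearMap.sum_apply] at h2
    change ∑ k, (wm φ D) k l * a k = 0
    rw [LinearMap.zero_apply] at h2
    rw [← h2]
    refine Finset.sum_congr rfl fun k _ => ?_
    rw [LinearMap.smul_apply, smul_eq_mul, mul_comm]
    rfl
  have h2 : IsUnit (wm φ D).transpose.det := by
    rw [Matrix.det_transpose]
    exact Ne.isUnit h
  have h3 : a = 0 := by
    have h4 := congrArg (fun v => ((wm φ D).transpose)⁻¹.mulVec v) h1
    simpa only [Matrix.mulVec_mulVec, Matrix.nonsing_inv_mul _ h2, Matrix.one_mulVec,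
      Matrix.mulVec_zero] using h4
  intro i
  rw [h3]
  rfl

end

section

variable {K : Type} [Field K] [Algebra ℂ K] [Algebra.EssFiniteType ℂ K] {n m : ℕ}

/-- the theorem for `n` symmetric tensors -/
theorem main1 (hn : Algebra.trdeg ℂ K = n) (ρ : ResData n m) (hINT : S_INT) (hLIE : S_LIE)
    (hSUR : S_SUR) (hm : 1 ≤ m) {T : Fin n → Ten K m} (hreg : ∀ i, RegT (n := n) (T i))
    (hsym : ∀ i, SymmT (T i)) {D : Fin n → Derivation ℂ K K} (h0 : NoZero T D) :
    (∃ r : ℕ, 1 ≤ r ∧ ∃ Θ : (Fin n → Derivation ℂ K K) → K, IsPluri r Θ ∧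
      (∀ P : Place ℂ K, Divisorial n P → RegAt P Θ) ∧ ∃ D, Θ D ≠ 0) ∧
    (KodLeZero K n → ∃ F : IntermediateField K (AlgebraicClosure K), FiniteDimensional K F ∧
      IsGalois K F ∧ AbelianLike F n) := by
  have hchK : CharZero K := charZero_of_injective_algebraMap (algebraMap ℂ K).injective
  obtain ⟨C⟩ := exists_crd' hn
  have h1 : NoZero T C.E := noz_change hm h0 C
  have hne : Th ρ T C.E ≠ 0 := th_ne ρ h1
  refine ⟨⟨ρ.k, ρ.hk, Th ρ T, th_pluri ρ T, fun P hP => th_reg ρ hreg hP, C.E, hne⟩,
    fun hκ => ?_⟩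
  obtain ⟨g, hg, b, -, hb0, hact, hV1, hV2⟩ := frame (L := AlgebraicClosure K)
    (a := coL (AlgebraicClosure K) T C.E) ρ hINT hSUR hm
    (fun i π j => congrArg (algebraMap K (AlgebraicClosure K)) (co_symm hsym C.E i π j)) h1
    (hadd hn hκ ρ hINT hm hreg C hne)
  obtain ⟨F, hfin, hgal, φ, -, htop⟩ := exists_fr (Ω := AlgebraicClosure K) hg hb0 hact hV1 hV2
  refine ⟨F, hfin, hgal, vL φ, ?_, ?_, ?_⟩
  · refine vL_indep φ (D := (C.up F).E) ?_
    intro h2
    have h3 := det_wm ρ φ (E := C.E) (E' := (C.up F).E) fun i f => C.up_E _ _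
    unfold wv at h2
    rw [h2, zero_pow (by have := ρ.hk; omega), zero_mul] at h3
    exact hne ((map_eq_zero _).1 h3)
  · intro Q hQ k D hD
    exact vf_reg hn ρ hINT hm hreg φ hQ hD k
  · intro r hr η hη hηr
    exact kod_up hn hκ ρ hINT hLIE hm hreg φ hne htop r hr hη hηr

/-- the theorem for arbitrary systems of tensors -/
theorem main2 (hn : Algebra.trdeg ℂ K = n) (ρ : ResData n m) (hINT : S_INT) (hLIE : S_LIE)
    (hSUR : S_SUR) (hRED : S_RED) (hm : 1 ≤ m) {D : Fin n → Derivation ℂ K K}
    (h0 : ∀ x : Fin n → AlgebraicClosure K, x ≠ 0 → ∃ T : Ten K m, RegT (n := n) T ∧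
      ∑ j : Fin m → Fin n, algebraMap K (AlgebraicClosure K) (T fun l => D (j l)) *
        ∏ l, x (j l) ≠ 0) :
    (∃ r : ℕ, 1 ≤ r ∧ ∃ Θ : (Fin n → Derivation ℂ K K) → K, IsPluri r Θ ∧
      (∀ P : Place ℂ K, Divisorial n P → RegAt P Θ) ∧ ∃ D, Θ D ≠ 0) ∧
    (KodLeZero K n → ∃ F : IntermediateField K (AlgebraicClosure K), FiniteDimensional K F ∧
      IsGalois K F ∧ AbelianLike F n) := by
  classical
  have hchK : CharZero K := charZero_of_injective_algebraMap (algebraMap ℂ K).injective
  -- finitely many tensors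
  obtain ⟨c0, hc0⟩ : ∃ c0 : Ten K m → (Fin m → Fin n) → K, ∀ T j, c0 T j = T fun l => D (j l) :=
    ⟨_, fun _ _ => rfl⟩
  obtain ⟨S, hS⟩ : ∃ S : Set ((Fin m → Fin n) → K), S = {a | ∃ T, RegT (n := n) T ∧ a = c0 T} :=
    ⟨_, rfl⟩
  have hfg : (Submodule.span K S).FG := IsNoetherian.noetherian _
  rw [Submodule.fg_span_iff_fg_span_finset_subset] at hfg
  obtain ⟨s, hsS, hspan⟩ := hfg
  obtain ⟨N, hN⟩ : ∃ N, N = s.card := ⟨_, rfl⟩
  let e : Fin N ≃ s := (finCongr hN).trans s.equivFin.symm
  have hch : ∀ i : Fin N, ∃ T, RegT (n := n) T ∧ (e i : (Fin m → Fin n) → K) = c0 T := fun i => by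
    have h1 : (e i : (Fin m → Fin n) → K) ∈ S := hsS (e i).2
    rw [hS] at h1
    exact h1
  choose U hU hUe using hch
  obtain ⟨c, hc⟩ := hRED n m hm (AlgebraicClosure K) N
    (fun i j => algebraMap K (AlgebraicClosure K) (c0 (U i) j)) (fun x hx => by
      by_contra hcon
      push Not at hcon
      obtain ⟨T, hT, hTx⟩ := h0 x hx
      apply hTx
      have h1 : c0 T ∈ Submodule.span K (s : Set ((Fin m → Fin n) → K)) := by
        rw [← hspan]
        exact Submodule.subset_span (by rw [hS]; exact ⟨T, hT, rfl⟩)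
      have h2 : ∀ a ∈ Submodule.span K (s : Set ((Fin m → Fin n) → K)),
          ev (fun j => algebraMap K (AlgebraicClosure K) (a j)) x = 0 := by
        intro a ha
        induction ha using Submodule.span_induction with
        | mem a ha =>
          have h3 := hcon (e.symm ⟨a, ha⟩)
          have h4 : c0 (U (e.symm ⟨a, ha⟩)) = a := by
            rw [← hUe, Equiv.apply_symm_apply]
          rw [h4] at h3
          exact h3
        | zero =>
          unfold ev
          refine Finset.sum_eq_zero fun j _ => ?_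
          beta_reduce
          rw [Pi.zero_apply, map_zero, zero_mul]
        | add a b _ _ h3 h4 =>
          have h5 : ev (fun j => algebraMap K (AlgebraicClosure K) ((a + b) j)) x =
              ev (fun j => algebraMap K (AlgebraicClosure K) (a j)) x +
              ev (fun j => algebraMap K (AlgebraicClosure K) (b j)) x := by
            unfold ev
            rw [← Finset.sum_add_distrib]
            refine Finset.sum_congr rfl fun j _ => ?_
            beta_reduce
            rw [Pi.add_apply, map_add, add_mul]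
          rw [h5, h3, h4, add_zero]
        | smul f a _ h3 =>
          have h5 : ev (fun j => algebraMap K (AlgebraicClosure K) ((f • a) j)) x =
              algebraMap K (AlgebraicClosure K) f *
              ev (fun j => algebraMap K (AlgebraicClosure K) (a j)) x := by
            unfold ev
            rw [Finset.mul_sum]
            refine Finset.sum_congr rfl fun j _ => ?_
            beta_reduce
            rw [Pi.smul_apply, smul_eq_mul, map_mul, mul_assoc]
          rw [h5, h3, mul_zero]
      have h3 := h2 _ h1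
      unfold ev at h3
      rw [← h3]
      refine Finset.sum_congr rfl fun j _ => ?_
      beta_reduce
      rw [hc0])
  -- the combinations
  obtain ⟨T, hT⟩ : ∃ T : Fin n → Ten K m, ∀ i, T i = ∑ s, algebraMap ℂ K (c i s) • U s :=
    ⟨_, fun _ => rfl⟩
  have hTa : ∀ i G, T i G = ∑ s, algebraMap ℂ K (c i s) * U s G := by
    intro i G
    rw [hT, MultilinearMap.sum_apply]
    rfl
  have hTr : ∀ i, RegT (n := n) (T i) := by
    intro i P hP G hG
    rw [hTa]
    exact reg_sum P _ _ fun s _ => P.reg_mul (P.reg_const _) (hU s P hP G hG)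
  refine main1 hn ρ hINT hLIE hSUR hm (T := fun i => symT (T i)) (D := D)
    (fun i => symT_reg (hTr i)) (fun i => symT_symm _) ?_
  rintro ⟨x, hx, hz⟩
  obtain ⟨i, hi⟩ := hc x hx
  apply hi
  have h1 := hz i
  beta_reduce at h1
  rw [ev_symT] at h1
  rw [← h1]
  congr 1
  funext j
  unfold co
  rw [hTa, map_sum]
  refine Finset.sum_congr rfl fun s _ => ?_
  rw [map_mul, hc0, ← IsScalarTower.algebraMap_apply]

end

end Pool.Agent.L7h62.SD
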