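import Pool.Agent.L7h62.SD.Frame
import Pool.Agent.L7h62.MM.Reg

/-!
# Project SD: covariant tensors, their coefficients, and the resultant
-/

set_option autoImplicit false
set_option linter.all false

open FF Module Pool.Agent.W602.GT Pool.Agent.W603.LV Pool.Agent.W619.PQ Pool.Agent.Y172
open Pool.Agent.L7h62.MM MvPolynomial

namespace Pool.Agent.L7h62.SD

section

variable {K : Type} [Field K] [Algebra ℂ K] {n m : ℕ}

/-- covariant tensors -/
abbrev Ten (K : Type) [Field K] [Algebra ℂ K] (m : ℕ) : Type :=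
  MultilinearMap K (fun _ : Fin m => Derivation ℂ K K) K

/-- the coefficients in a frame -/
def co (T : Fin n → Ten K m) (D : Fin n → Derivation ℂ K K) : Fin n → (Fin m → Fin n) → K :=
  fun i j => T i fun l => D (j l)

/-- symmetric tensors -/
def SymmT (T : Ten K m) : Prop :=
  ∀ (π : Equiv.Perm (Fin m)) (D : Fin m → Derivation ℂ K K), T (D ∘ π) = T D

theorem co_symm {T : Fin n → Ten K m} (hT : ∀ i, SymmT (T i)) (D : Fin n → Derivation ℂ K K)
    (i : Fin n) : Symm (co T D i) := fun π j => hT i π fun l => D (j l)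

theorem ten_expand (T : Ten K m) (D : Fin n → Derivation ℂ K K) (a : Fin m → Fin n → K) :
    T (fun l => ∑ j, a l j • D j) = ∑ κ : Fin m → Fin n, (∏ l, a l (κ l)) * T fun l => D (κ l) := by
  rw [MultilinearMap.map_sum]
  refine Finset.sum_congr rfl fun κ _ => ?_
  rw [MultilinearMap.map_smul_univ]
  rfl

theorem co_change (T : Fin n → Ten K m) (A : Matrix (Fin n) (Fin n) K)
    (D : Fin n → Derivation ℂ K K) (i : Fin n) :
    co T (fun i => ∑ j, A i j • D j) i = act A.transpose (co T D i) := by
  funext k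
  unfold co act
  rw [ten_expand (T i) D fun l => A (k l)]
  refine Finset.sum_congr rfl fun κ _ => ?_
  rw [mul_comm]
  rfl

/-- the value on one vector field -/
theorem ev_co (T : Fin n → Ten K m) (D : Fin n → Derivation ℂ K K) (i : Fin n) (x : Fin n → K) :
    ev (co T D i) x = T i fun _ => ∑ j, x j • D j := by
  rw [ten_expand (T i) D fun _ => x]
  unfold ev co
  refine Finset.sum_congr rfl fun κ _ => ?_
  rw [mul_comm]

/-- the resultant of the tensors -/
noncomputable def Th (ρ : ResData n m) (T : Fin n → Ten K m) (D : Fin n → Derivation ℂ K K) : K :=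
  at_ (co T D) ρ.p

theorem th_pluri (ρ : ResData n m) (T : Fin n → Ten K m) : IsPluri ρ.k (Th ρ T) := by
  intro A D
  unfold Th
  have h1 : co T (fun i => ∑ j, A i j • D j) = fun i => act A.transpose (co T D i) :=
    funext fun i => co_change T A D i
  rw [h1, ρ.cov, Matrix.det_transpose]

/-- the values of polynomials in regular elements are regular -/
theorem at_reg {P : Place ℂ K} {a : Fin n → (Fin m → Fin n) → K} (ha : ∀ i j, P.Reg (a i j))
    (F : UR n m) : P.Reg (at_ a F) := by
  unfold at_
  induction F using MvPolynomial.induction_on with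
  | C c => 
    rw [aeval_C]
    exact P.reg_const c
  | add p q hp hq =>
    rw [map_add]
    exact P.reg_add hp hq
  | mul_X p i hp =>
    rw [map_mul, aeval_X]
    exact P.reg_mul hp (ha _ _)

theorem ev_reg {P : Place ℂ K} {a : (Fin m → Fin n) → K} (ha : ∀ j, P.Reg (a j)) {x : Fin n → K}
    (hx : ∀ j, P.Reg (x j)) : P.Reg (ev a x) := by
  unfold ev
  exact reg_sum P _ _ fun j _ => P.reg_mul (ha j) (reg_prod P _ _ fun l _ => hx _)

/-- holomorphic tensors -/
def RegT (T : Ten K m) : Prop := ∀ P : Place ℂ K, Divisorial n P →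
  ∀ D : Fin m → Derivation ℂ K K, (∀ l, DerReg P (D l)) → P.Reg (T D)

theorem co_reg {T : Fin n → Ten K m} (hT : ∀ i, RegT (n := n) (T i)) {P : Place ℂ K}
    (hP : Divisorial n P) {D : Fin n → Derivation ℂ K K} (hD : ∀ i, DerReg P (D i)) (i : Fin n)
    (j : Fin m → Fin n) : P.Reg (co T D i j) := hT i P hP _ fun l => hD _

theorem th_reg (ρ : ResData n m) {T : Fin n → Ten K m} (hT : ∀ i, RegT (n := n) (T i))
    {P : Place ℂ K} (hP : Divisorial n P) : RegAt P (Th ρ T) :=
  fun D hD => at_reg (co_reg hT hP hD) _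

/-- there is no common zero -/
def NoZero (T : Fin n → Ten K m) (D : Fin n → Derivation ℂ K K) : Prop :=
  ¬ HasZero fun i j => algebraMap K (AlgebraicClosure K) (co T D i j)

theorem th_ne (ρ : ResData n m) {T : Fin n → Ten K m} {D : Fin n → Derivation ℂ K K}
    (h : NoZero T D) : Th ρ T D ≠ 0 := by
  have h1 := ρ.ne (AlgebraicClosure K) _ h
  have h3 := at_map (IsScalarTower.toAlgHom ℂ K (AlgebraicClosure K)) (co T D) ρ.p
  intro h2
  apply h1
  refine h3.symm.trans ?_
  change algebraMap K (AlgebraicClosure K) (Th ρ T D) = 0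
  rw [h2, map_zero]

/-- changing frames -/
theorem noz_change (hm : 1 ≤ m) {T : Fin n → Ten K m} {D : Fin n → Derivation ℂ K K}
    (h : NoZero T D) (C : Crd ℂ K (Fin n)) : NoZero T C.E := by
  rintro ⟨x, hx, hz⟩
  obtain ⟨B, hB⟩ : ∃ B : Matrix (Fin n) (Fin n) K, B = Matrix.of fun i j => D i (C.z j) := ⟨_, rfl⟩
  obtain ⟨BΩ, hBΩ⟩ : ∃ BΩ : Matrix (Fin n) (Fin n) (AlgebraicClosure K),
    BΩ = B.transpose.map (algebraMap K (AlgebraicClosure K)) := ⟨_, rfl⟩
  have hco : ∀ i, (fun j => algebraMap K (AlgebraicClosure K) (co T D i j)) =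
      act BΩ (fun j => algebraMap K (AlgebraicClosure K) (co T C.E i j)) := by
    intro i
    have h1 : D = fun i => ∑ j, B i j • C.E j := by
      funext i
      rw [hB]
      exact (expandD C (D i)).symm
    funext j
    rw [h1, co_change, act_map, hBΩ]
  by_cases hdet : BΩ.det = 0
  · obtain ⟨y, hy, hy0⟩ := Matrix.exists_mulVec_eq_zero_iff.2 hdet
    apply h
    refine ⟨y, hy, fun i => ?_⟩
    beta_reduce
    rw [hco, ev_act, hy0]
    exact ev_zero hm _
  · apply h
    refine ⟨BΩ⁻¹.mulVec x, ?_, fun i => ?_⟩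
    · intro h1
      apply hx
      have h2 := congrArg (fun v => BΩ.mulVec v) h1
      simpa only [Matrix.mulVec_mulVec, Matrix.mul_nonsing_inv BΩ (Ne.isUnit hdet),
        Matrix.one_mulVec, Matrix.mulVec_zero] using h2
    · beta_reduce
      rw [hco, ev_act, Matrix.mulVec_mulVec, Matrix.mul_nonsing_inv BΩ (Ne.isUnit hdet),
        Matrix.one_mulVec]
      exact hz i

/-- the symmetrization -/
noncomputable def symT (T : Ten K m) : Ten K m :=
  (m.factorial : K)⁻¹ • ∑ π : Equiv.Perm (Fin m), T.domDomCongr π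

theorem symT_apply (T : Ten K m) (D : Fin m → Derivation ℂ K K) :
    symT T D = (m.factorial : K)⁻¹ * ∑ π : Equiv.Perm (Fin m), T (D ∘ π) := by
  unfold symT
  rw [MultilinearMap.smul_apply, MultilinearMap.sum_apply]
  rfl

theorem symT_symm (T : Ten K m) : SymmT (symT T) := by
  intro π D
  rw [symT_apply, symT_apply]
  congr 1
  exact Fintype.sum_equiv (Equiv.mulLeft π) _ _ fun π' => rfl

theorem symT_reg [CharZero K] {T : Ten K m} (hT : RegT (n := n) T) : RegT (n := n) (symT T) := by
  intro P hP D hD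
  rw [symT_apply]
  refine P.reg_mul ?_ (reg_sum P _ _ fun π _ => hT P hP _ fun l => hD _)
  have h1 := P.reg_const ((m.factorial : ℂ)⁻¹)
  rwa [map_inv₀, map_natCast] at h1

theorem symT_diag [CharZero K] (T : Ten K m) (D : Derivation ℂ K K) :
    symT T (fun _ => D) = T fun _ => D := by
  rw [symT_apply]
  have h1 : ∀ π : Equiv.Perm (Fin m), T ((fun _ => D) ∘ π) = T fun _ => D := fun π => rfl
  rw [Finset.sum_congr rfl fun π _ => h1 π, Finset.sum_const, Finset.card_univ,
    Fintype.card_perm, Fintype.card_fin, nsmul_eq_mul, ← mul_assoc, inv_mul_cancel₀, one_mul]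
  exact_mod_cast Nat.factorial_ne_zero m

/-- the values of the forms are not changed by the symmetrization -/
theorem ev_symT [CharZero K] {L : Type} [Field L] [Algebra K L] (T : Fin n → Ten K m)
    (D : Fin n → Derivation ℂ K K) (i : Fin n) (x : Fin n → L) :
    ev (fun j => algebraMap K L (co (fun i => symT (T i)) D i j)) x =
      ev (fun j => algebraMap K L (co T D i j)) x := by
  classical
  unfold ev co
  simp only [symT_apply, map_mul, map_sum, Finset.mul_sum, Finset.sum_mul, map_inv₀, map_natCast]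
  rw [Finset.sum_comm]
  have h1 : ∀ π : Equiv.Perm (Fin m), ∑ j : Fin m → Fin n, (m.factorial : L)⁻¹ *
      algebraMap K L (T i ((fun l => D (j l)) ∘ π)) * ∏ l, x (j l) =
      ∑ j : Fin m → Fin n, (m.factorial : L)⁻¹ *
        (algebraMap K L (T i fun l => D (j l)) * ∏ l, x (j l)) := by
    intro π
    refine Fintype.sum_equiv (Equiv.arrowCongr π.symm (Equiv.refl (Fin n))) _ _ fun j => ?_
    have h2 : (Equiv.arrowCongr π.symm (Equiv.refl (Fin n))) j = j ∘ π := by
      funext l
      simp [Equiv.arrowCongr]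
    rw [h2, mul_assoc]
    congr 2
    exact (Equiv.prod_comp π fun l => x (j l)).symm
  rw [Finset.sum_congr rfl fun π _ => h1 π, Finset.sum_const, Finset.card_univ,
    Fintype.card_perm, Fintype.card_fin, nsmul_eq_mul, ← Finset.mul_sum, ← mul_assoc,
    mul_inv_cancel₀, one_mul]
  have hL : CharZero L := charZero_of_injective_algebraMap (algebraMap K L).injective
  exact_mod_cast Nat.factorial_ne_zero m

end

end Pool.Agent.L7h62.SD
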