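import Pool.Agent.L7h62.SD.Cv

/-!
# Project SD: the holomorphic one-forms on the covering
-/

set_option autoImplicit false
set_option linter.all false

open FF Module Pool.Agent.W602.GT Pool.Agent.W603.LV Pool.Agent.W619.PQ Pool.Agent.Y172
open Pool.Agent.L7h62.MM

namespace Pool.Agent.L7h62.SD

section

variable {k K : Type} [Field k] [Field K] [Algebra k K]

/-- integral elements of the field are regular -/
theorem reg_of_int {P : Place k K} {x : K} (h : IntAt P x) : P.Reg x := by
  have h1 : IsIntegral P.O x := h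
  obtain ⟨y, hy⟩ := IsIntegrallyClosed.isIntegral_iff.1 h1
  rw [← hy]
  exact y.2

end

section

variable {K : Type} [Field K] [Algebra ℂ K] {n m : ℕ}
  {L : Type} [Field L] [Algebra ℂ L] [Algebra K L] [IsScalarTower ℂ K L]
  {T : Fin n → Ten K m} {C : Crd ℂ K (Fin n)}

/-- the points with regular values are regular -/
theorem vals_reg (ρ : ResData n m) (hINT : S_INT) (hm : 1 ≤ m) (φ : Fr L T C) {Q : Place ℂ L}
    {x : Fin n → L} (hx : ∀ i, Q.Reg (ev (fun j => algebraMap ℂ L (φ.b i j)) x)) (j : Fin n) :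
    Q.Reg (x j) := by
  have h1 := cert_IntAt (K := L) (L := L) ρ hINT hm (P := Q)
    (a := fun i j => algebraMap ℂ L (φ.b i j)) (fun i j => Q.reg_const _) x
    (fun i => ⟨_, hx i, rfl⟩) j
  have h2 := reg_of_int h1
  have h3 : at_ (fun i j => algebraMap ℂ L (φ.b i j)) ρ.p = algebraMap ℂ L (at_ φ.b ρ.p) :=
    (at_map (IsScalarTower.toAlgHom ℂ ℂ L) φ.b ρ.p).symm
  have h4 := ρ.ne ℂ φ.b φ.hb
  have h5 : x j = algebraMap ℂ L ((at_ φ.b ρ.p ^ ρ.M)⁻¹) *
      (algebraMap L L (at_ (fun i j => algebraMap ℂ L (φ.b i j)) ρ.p ^ ρ.M) * x j) := by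
    rw [h3, ← map_pow, ← mul_assoc]
    change x j = algebraMap ℂ L _ * algebraMap ℂ L _ * x j
    rw [← map_mul, inv_mul_cancel₀ (pow_ne_zero _ h4), map_one, one_mul]
  rw [h5]
  exact Q.reg_mul (Q.reg_const _) h2

/-- the one-forms -/
noncomputable def vf (φ : Fr L T C) (D : Derivation ℂ L L) : Fin n → L :=
  φ.g⁻¹.mulVec fun j => D (algebraMap K L (C.z j))

theorem vf_add (φ : Fr L T C) (D D' : Derivation ℂ L L) : vf φ (D + D') = vf φ D + vf φ D' := by
  unfold vf
  rw [← Matrix.mulVec_add]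
  rfl

theorem vf_smul (φ : Fr L T C) (f : L) (D : Derivation ℂ L L) : vf φ (f • D) = f • vf φ D := by
  unfold vf
  rw [← Matrix.mulVec_smul]
  rfl

theorem vf_sum (φ : Fr L T C) {J : Type} (s : Finset J) (f : J → L) (D : J → Derivation ℂ L L) :
    vf φ (∑ j ∈ s, f j • D j) = ∑ j ∈ s, f j • vf φ (D j) := by
  classical
  induction s using Finset.induction_on with
  | empty =>
    rw [Finset.sum_empty, Finset.sum_empty]
    unfold vf
    exact Matrix.mulVec_zero _
  | insert a s ha ih => rw [Finset.sum_insert ha, Finset.sum_insert ha, vf_add, vf_smul, ih]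

variable [Algebra.EssFiniteType ℂ K]

/-- the values of the tensors in terms of the one-forms -/
theorem vf_loc (φ : Fr L T C) {y : Fin n → K} {E : Fin n → Derivation ℂ K K}
    (hy : IsTranscendenceBasis ℂ y) (hE : ∀ i j, E i (y j) = if i = j then 1 else 0)
    (D : Derivation ℂ L L) (i : Fin n) :
    ev (fun j => algebraMap ℂ L (φ.b i j)) (vf φ D) =
      ev (coL L T E i) fun j => D (algebraMap K L (y j)) := by
  rw [← φ.hact i, ev_act]
  unfold vf
  rw [Matrix.mulVec_mulVec, Matrix.mul_nonsing_inv _ φ.hg, Matrix.one_mulVec,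
    coL_change T hy hE C.E i, ev_act]
  congr 1
  funext j
  have h1 := chainA C (emb ℂ K L) D (y j)
  change D (algebraMap K L (y j)) = ∑ c, D (algebraMap K L (C.z c)) * algebraMap K L (C.E c (y j))
    at h1
  rw [h1]
  change ∑ s, (((Matrix.of fun i j => C.E i (y j)).transpose.map (algebraMap K L)) j s) *
    D (algebraMap K L (C.z s)) = _
  refine Finset.sum_congr rfl fun s _ => ?_
  rw [mul_comm]
  rfl

variable [FiniteDimensional K L]

/-- **The one-forms are holomorphic.** -/
theorem vf_reg (hn : Algebra.trdeg ℂ K = n) (ρ : ResData n m) (hINT : S_INT) (hm : 1 ≤ m)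
    (hreg : ∀ i, RegT (n := n) (T i)) (φ : Fr L T C) {Q : Place ℂ L} (hQ : Divisorial n Q)
    {D : Derivation ℂ L L} (hD : DerReg Q D) (j : Fin n) : Q.Reg (vf φ D j) := by
  obtain ⟨P, e, hP⟩ := exists_below (K := K) Q
  have hPd := divisorial_down hP hQ
  obtain ⟨y, E, i0, hl⟩ := exists_loc hn hPd
  refine vals_reg ρ hINT hm φ (fun i => ?_) j
  rw [vf_loc φ hl.bas hl.dual]
  exact ev_reg (fun j => hP.reg.2 (co_reg hreg hPd hl.pres i j))
    fun j => hD _ (hP.reg.2 (hl.reg j))

/-- the matrix of the forms on the lifts of a frame -/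
noncomputable def wm (φ : Fr L T C) (E' : Fin n → Derivation ℂ L L) : Matrix (Fin n) (Fin n) L :=
  Matrix.of fun k l => vf φ (E' l) k

omit [FiniteDimensional K L] in
theorem act_wm (φ : Fr L T C) {E : Fin n → Derivation ℂ K K} {E' : Fin n → Derivation ℂ L L}
    (hE' : ∀ i f, E' i (algebraMap K L f) = algebraMap K L (E i f)) (i : Fin n) :
    act (wm φ E') (fun j => algebraMap ℂ L (φ.b i j)) = coL L T E i := by
  rw [← φ.hact i, ← act_mul]
  have h1 : φ.g * wm φ E' = (Matrix.of fun i j => E i (C.z j)).transpose.map (algebraMap K L) := by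
    ext s l
    rw [Matrix.mul_apply]
    change φ.g.mulVec (vf φ (E' l)) s = algebraMap K L (E l (C.z s))
    unfold vf
    rw [Matrix.mulVec_mulVec, Matrix.mul_nonsing_inv _ φ.hg, Matrix.one_mulVec, hE']
  rw [h1]
  exact (coL_change T C.bas C.dual E i).symm

omit [FiniteDimensional K L] in
theorem det_wm (ρ : ResData n m) (φ : Fr L T C) {E : Fin n → Derivation ℂ K K}
    {E' : Fin n → Derivation ℂ L L}
    (hE' : ∀ i f, E' i (algebraMap K L f) = algebraMap K L (E i f)) :
    algebraMap K L (Th ρ T E) = (wm φ E').det ^ ρ.k * algebraMap ℂ L (at_ φ.b ρ.p) := by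
  have h1 := ρ.cov L (fun i j => algebraMap ℂ L (φ.b i j)) (wm φ E')
  have h2 : (fun i => act (wm φ E') fun j => algebraMap ℂ L (φ.b i j)) = coL L T E :=
    funext fun i => act_wm φ hE' i
  rw [h2] at h1
  have h3 : at_ (fun i j => algebraMap ℂ L (φ.b i j)) ρ.p = algebraMap ℂ L (at_ φ.b ρ.p) :=
    (at_map (IsScalarTower.toAlgHom ℂ ℂ L) φ.b ρ.p).symm
  rw [h3] at h1
  rw [← h1]
  exact at_map (IsScalarTower.toAlgHom ℂ K L) (co T E) ρ.p

end

end Pool.Agent.L7h62.SD
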